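import Mathlib

/-!
# Classes of groups with inheritance properties
-/

set_option autoImplicit false

namespace Pool.Agent.H98.FJ

/-- `H`, with the homomorphisms `φ i`, is the colimit of the directed system of groups `G i` with the structure maps
`f i j`. The structure maps need not be injective. -/
structure IsColimit {ι : Type} [Preorder ι] {G : ι → Type} [∀ i, Group (G i)]
    (f : ∀ i j, i ≤ j → (G i →* G j)) {H : Type} [Group H] (φ : ∀ i, G i →* H) : Prop where
  /-- the index set is not empty -/
  nonempty : Nonempty ι
  /-- the index set is directed -/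
  directed : ∀ i j : ι, ∃ k, i ≤ k ∧ j ≤ k
  /-- the system is functorial: identities -/
  map_id : ∀ (i : ι) (h : i ≤ i) (x : G i), f i i h x = x
  /-- the system is functorial: compositions -/
  map_comp : ∀ (i j k : ι) (hij : i ≤ j) (hjk : j ≤ k) (hik : i ≤ k) (x : G i),
    f j k hjk (f i j hij x) = f i k hik x
  /-- the maps to `H` are compatible -/
  compat : ∀ (i j : ι) (h : i ≤ j) (x : G i), φ j (f i j h x) = φ i x
  /-- the maps to `H` are jointly surjective -/
  surj : ∀ y : H, ∃ (i : ι) (x : G i), φ i x = y
  /-- an element which dies in `H` dies at some stage of the system -/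
  ker : ∀ (i : ι) (x : G i), φ i x = 1 → ∃ (j : ι) (h : i ≤ j), f i j h x = 1

/-- A class of (small) groups which contains the finite groups and the infinite cyclic group and is closed under
isomorphism, subgroups, finite products, finite free products, overgroups of finite index and directed colimits (with
arbitrary structure maps). -/
structure Inherits (C : (G : Type) → [Group G] → Prop) : Prop where
  /-- closed under isomorphism -/
  iso : ∀ (G H : Type) [Group G] [Group H], (G ≃* H) → C G → C H
  /-- finite groups -/
  fin : ∀ (G : Type) [Group G], Finite G → C G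
  /-- the infinite cyclic group -/
  int : C (Multiplicative ℤ)
  /-- closed under subgroups -/
  sub : ∀ (G : Type) [Group G] (H : Subgroup G), C G → C H
  /-- closed under finite direct products -/
  pi : ∀ (ι : Type), Finite ι → ∀ (G : ι → Type) [∀ i, Group (G i)], (∀ i, C (G i)) → C (∀ i, G i)
  /-- closed under finite free products -/
  coprod : ∀ (ι : Type), Finite ι → ∀ (G : ι → Type) [∀ i, Group (G i)], (∀ i, C (G i)) →
    C (Monoid.CoprodI G)
  /-- closed under overgroups of finite index -/
  index : ∀ (G : Type) [Group G] (H : Subgroup G), H.FiniteIndex → C H → C G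
  /-- closed under directed colimits -/
  colim : ∀ (ι : Type) [Preorder ι] (G : ι → Type) [∀ i, Group (G i)]
    (f : ∀ i j, i ≤ j → (G i →* G j)) (H : Type) [Group H] (φ : ∀ i, G i →* H),
    IsColimit f φ → (∀ i, C (G i)) → C H

namespace Inherits

variable {C : (G : Type) → [Group G] → Prop} (hC : Inherits C)
include hC

theorem of_injective {G H : Type} [Group G] [Group H] (φ : G →* H)
    (hφ : Function.Injective φ) (h : C H) : C G :=
  hC.iso φ.range G (MonoidHom.ofInjective hφ).symm (hC.sub H φ.range h)

/-- directed colimits, described by a cocone -/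
theorem cocone {ι : Type} [Preorder ι] [IsDirectedOrder ι] [hne : Nonempty ι] {G : ι → Type}
    [∀ i, Group (G i)] (f : ∀ i j, i ≤ j → G i →* G j) [hf : DirectedSystem G (f · · ·)]
    {H : Type} [Group H] (φ : ∀ i, G i →* H)
    (comp : ∀ i j (h : i ≤ j) (x : G i), φ j (f i j h x) = φ i x)
    (surj : ∀ y : H, ∃ i x, φ i x = y)
    (ker : ∀ i (x : G i), φ i x = 1 → ∃ j, ∃ h : i ≤ j, f i j h x = 1)
    (hG : ∀ i, C (G i)) : C H :=
  hC.colim ι G f H φ
    { nonempty := hne
      directed := fun i j => exists_ge_ge i j
      map_id := fun _ _ x => hf.map_self x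
      map_comp := fun _ _ _ hij hjk _ x => hf.map_map hij hjk x
      compat := comp
      surj := surj
      ker := ker } hG

/-- directed unions of subgroups -/
theorem union {G : Type} [Group G] {ι : Type} [Preorder ι] [IsDirectedOrder ι] [Nonempty ι]
    (S : ι → Subgroup G) (mono : ∀ i j, i ≤ j → S i ≤ S j) (hS : ∀ g : G, ∃ i, g ∈ S i)
    (hG : ∀ i, C (S i)) : C G := by
  have : DirectedSystem (fun i => S i) (fun i j h => Subgroup.inclusion (mono i j h)) :=
    ⟨fun i x => rfl, fun i j k hij hjk x => rfl⟩
  refine hC.cocone (G := fun i => S i) (fun i j h => Subgroup.inclusion (mono i j h))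
    (fun i => (S i).subtype) ?_ ?_ ?_ hG
  · intro i j h x
    rfl
  · intro y
    obtain ⟨i, hi⟩ := hS y
    exact ⟨i, ⟨y, hi⟩, rfl⟩
  · intro i x hx
    refine ⟨i, le_rfl, ?_⟩
    have : x = 1 := Subtype.ext hx
    rw [this, map_one]

/-- locally finite groups -/
theorem locallyFinite {G : Type} [Group G]
    (h : ∀ s : Finset G, ∃ K : Subgroup G, Finite K ∧ (s : Set G) ⊆ K) : C G := by
  refine hC.union (ι := Finset G) (fun s => Subgroup.closure (s : Set G)) ?_ ?_ ?_
  · intro s t hst
    exact Subgroup.closure_mono (by exact_mod_cast hst)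
  · intro g
    exact ⟨{g}, Subgroup.subset_closure (by simp)⟩
  · intro s
    obtain ⟨K, hK, hs⟩ := h s
    have h1 : Subgroup.closure (s : Set G) ≤ K := (Subgroup.closure_le K).2 hs
    have : Finite (Subgroup.closure (s : Set G)) :=
      Finite.of_injective _ (Subgroup.inclusion_injective h1)
    exact hC.fin _ this

/-- the quotient of `F` by a directed union of kernels -/
theorem quot {F : Type} [Group F] {G : Type} [Group G] (φ : F →* G)
    (hφ : Function.Surjective φ) {ι : Type} [Preorder ι] [IsDirectedOrder ι] [Nonempty ι]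
    (N : ι → Subgroup F) [∀ i, (N i).Normal] (mono : ∀ i j, i ≤ j → N i ≤ N j)
    (hN : ∀ i, N i ≤ φ.ker) (hk : ∀ x ∈ φ.ker, ∃ i, x ∈ N i)
    (hG : ∀ i, C (F ⧸ N i)) : C G := by
  have hm : ∀ i j, i ≤ j → N i ≤ (N j).comap (MonoidHom.id F) := fun i j h => mono i j h
  have : DirectedSystem (fun i => F ⧸ N i)
      (fun i j h => QuotientGroup.map (N i) (N j) (MonoidHom.id F) (hm i j h)) := by
    refine ⟨fun i x => ?_, fun i j k hij hjk x => ?_⟩
    · induction x using QuotientGroup.induction_on with
      | H x => rfl
    · induction x using QuotientGroup.induction_on with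
      | H x => rfl
  refine hC.cocone (G := fun i => F ⧸ N i)
    (fun i j h => QuotientGroup.map (N i) (N j) (MonoidHom.id F) (hm i j h))
    (fun i => QuotientGroup.lift (N i) φ (fun x hx => hN i hx)) ?_ ?_ ?_ hG
  · intro i j h x
    induction x using QuotientGroup.induction_on with
    | H x => rfl
  · intro y
    obtain ⟨x, hx⟩ := hφ y
    obtain ⟨i⟩ := ‹Nonempty ι›
    exact ⟨i, (x : F ⧸ N i), hx⟩
  · intro i x
    induction x using QuotientGroup.induction_on with
    | H x =>
      intro hx
      have hx' : φ x = 1 := hx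
      obtain ⟨j, hj⟩ := hk x hx'
      obtain ⟨k, hik, hjk⟩ := exists_ge_ge i j
      refine ⟨k, hik, ?_⟩
      have h1 : x ∈ N k := mono j k hjk hj
      exact (QuotientGroup.eq_one_iff x).2 h1

open Classical in
/-- arbitrary free products -/
theorem coprodI {I : Type} {G : I → Type} [∀ i, Group (G i)] (hG : ∀ i, C (G i)) :
    C (Monoid.CoprodI G) := by
  let f : ∀ s t : Finset I, s ≤ t → Monoid.CoprodI (fun i : s => G i) →*
      Monoid.CoprodI (fun i : t => G i) := fun s t h =>
    Monoid.CoprodI.lift (fun i : s => Monoid.CoprodI.of (M := fun i : t => G i) (i := ⟨i.1, h i.2⟩))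
  have hf : ∀ (s t : Finset I) (h : s ≤ t) (i : s) (x : G i), f s t h (Monoid.CoprodI.of x) =
      Monoid.CoprodI.of (M := fun i : t => G i) (i := ⟨i.1, h i.2⟩) x := by
    intro s t h i x
    exact Monoid.CoprodI.lift_of _ _
  let φ : ∀ s : Finset I, Monoid.CoprodI (fun i : s => G i) →* Monoid.CoprodI G := fun s =>
    Monoid.CoprodI.lift (fun i : s => Monoid.CoprodI.of (M := G) (i := i.1))
  have hφ : ∀ (s : Finset I) (i : s) (x : G i), φ s (Monoid.CoprodI.of x) =
      Monoid.CoprodI.of (M := G) (i := i.1) x := by
    intro s i x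
    exact Monoid.CoprodI.lift_of _ _
  have : DirectedSystem (fun s : Finset I => Monoid.CoprodI (fun i : s => G i))
      (fun s t h => f s t h) := by
    refine ⟨fun s x => ?_, fun {u t s} hst htu x => ?_⟩
    · have : f s s le_rfl = MonoidHom.id _ := by
        apply Monoid.CoprodI.ext_hom
        intro i
        ext x
        exact hf s s le_rfl i x
      exact DFunLike.congr_fun this x
    · have : (f t u htu).comp (f s t hst) = f s u (hst.trans htu) := by
        apply Monoid.CoprodI.ext_hom
        intro i
        ext x
        change f t u htu (f s t hst (Monoid.CoprodI.of x)) = f s u _ (Monoid.CoprodI.of x)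
        rw [hf, hf, hf]
      exact DFunLike.congr_fun this x
  have hcomp : ∀ (s t : Finset I) (h : s ≤ t), (φ t).comp (f s t h) = φ s := by
    intro s t h
    apply Monoid.CoprodI.ext_hom
    intro i
    ext x
    change φ t (f s t h (Monoid.CoprodI.of x)) = φ s (Monoid.CoprodI.of x)
    rw [hf, hφ, hφ]
  -- retraction
  let r : ∀ s : Finset I, Monoid.CoprodI G →* Monoid.CoprodI (fun i : s => G i) := fun s =>
    Monoid.CoprodI.lift (fun i => if h : i ∈ s then
      Monoid.CoprodI.of (M := fun i : s => G i) (i := ⟨i, h⟩) else 1)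
  have hr : ∀ s, (r s).comp (φ s) = MonoidHom.id _ := by
    intro s
    apply Monoid.CoprodI.ext_hom
    intro i
    ext x
    change r s (φ s (Monoid.CoprodI.of (M := fun i : s => G i) x)) =
      Monoid.CoprodI.of (M := fun i : s => G i) x
    rw [hφ]
    change Monoid.CoprodI.lift _ _ = _
    rw [Monoid.CoprodI.lift_of, dif_pos i.2]
  refine hC.cocone (G := fun s : Finset I => Monoid.CoprodI (fun i : s => G i)) f φ ?_ ?_ ?_ ?_
  · intro s t h x
    exact DFunLike.congr_fun (hcomp s t h) x
  · intro y
    induction y using Monoid.CoprodI.induction_on with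
    | one => exact ⟨∅, 1, map_one _⟩
    | of i x => exact ⟨{i}, Monoid.CoprodI.of (M := fun j : ({i} : Finset I) => G j)
        (i := ⟨i, by simp⟩) x, hφ _ _ _⟩
    | mul x y hx hy =>
      obtain ⟨s, x', rfl⟩ := hx
      obtain ⟨t, y', rfl⟩ := hy
      refine ⟨s ∪ t, f s _ Finset.subset_union_left x' * f t _ Finset.subset_union_right y', ?_⟩
      rw [map_mul]
      congr 1
      · exact DFunLike.congr_fun (hcomp s _ _) x'
      · exact DFunLike.congr_fun (hcomp t _ _) y'
  · intro s x hx
    refine ⟨s, le_rfl, ?_⟩
    have h1 : x = 1 := by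
      have := DFunLike.congr_fun (hr s) x
      change r s (φ s x) = x at this
      rw [hx, map_one] at this
      exact this.symm
    rw [h1, map_one]
  · intro s
    exact hC.coprod s inferInstance _ (fun i => hG i)

end Inherits

end Pool.Agent.H98.FJ
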