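import Pool.Agent.H98.FJ.Cover

/-!
# Contraction of the cover
-/

set_option autoImplicit false

namespace Pool.Agent.H98.FJ

open TA

variable {X : Type}

theorem cf_eq (ξ0 : ℕ → X) (g : finG X) : cf ξ0 g = cf' ξ0 g.1 := by
  rw [cf'_def g.2]

/-- the first section of a finitary letter -/
theorem psi_cf'_sec {ξ0 : ℕ → X} {g : TA X} (hg : g ∈ finG X) (x : X) :
    (psi ξ0 (cf' ξ0 g)).sec x = cf' ξ0 (sec1 g x) := by
  rw [cf'_def hg, psi_cf]
  rfl

theorem psi_cf'_perm {ξ0 : ℕ → X} {g : TA X} (hg : g ∈ finG X) :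
    (psi ξ0 (cf' ξ0 g)).perm = g [] := by
  rw [cf'_def hg, psi_cf]
  rfl

theorem secw_cf' {ξ0 : ℕ → X} {g : TA X} (hg : g ∈ finG X) (v : List X) :
    secw (psi ξ0) v (cf' ξ0 g) = cf' ξ0 (sec g v) := by
  induction v generalizing g with
  | nil => rfl
  | cons x w ih =>
    rw [secw_cons, psi_cf'_sec hg, ih (g := sec1 g x) (finG_sec hg [x])]
    rfl

theorem portf_cf' {ξ0 : ℕ → X} {g : TA X} (hg : g ∈ finG X) : portf (psi ξ0) (cf' ξ0 g) = g := by
  ext v : 1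
  change (psi ξ0 (secw (psi ξ0) v (cf' ξ0 g))).perm = g v
  rw [secw_cf' hg, psi_cf'_perm (finG_sec hg v), sec_apply, List.append_nil]

theorem secw_lam_pre {ξ0 ξ : ℕ → X} {g : TA X} (hg : Arr ξ g) (n : ℕ) :
    secw (psi ξ0) (pre ξ n) (lam ξ0 ξ g) = lam ξ0 (sh ξ n) (sec g (pre ξ n)) := by
  induction n generalizing ξ g with
  | zero => rw [pre_zero, secw_nil, sh_zero, sec_nil]
  | succ n ih =>
    rw [pre_succ, secw_cons, psi_lam hg]
    have h1 : (Psi ξ0 ξ g).sec (ξ 0) = lam ξ0 (sh ξ 1) (sec1 g (ξ 0)) := by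
      unfold Psi
      simp
    rw [h1, ← sh_one, ih (Arr_sec1 hg), sh_sh, Nat.add_comm 1 n]
    rfl

theorem secw_lam_off {ξ0 ξ : ℕ → X} {g : TA X} (hg : Arr ξ g) (n : ℕ) {x : X} (hx : x ≠ ξ n) :
    secw (psi ξ0) (pre ξ n ++ [x]) (lam ξ0 ξ g) = cf' ξ0 (sec g (pre ξ n ++ [x])) := by
  rw [secw_append, secw_lam_pre hg, secw_cons, secw_nil, psi_lam (Arr_sec hg n)]
  have h1 : x ≠ sh ξ n 0 := by simpa [sh] using hx
  have h2 : (Psi ξ0 (sh ξ n) (sec g (pre ξ n))).sec x = cf' ξ0 (sec1 (sec g (pre ξ n)) x) := by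
    unfold Psi
    simp only
    rw [if_neg h1]
  rw [h2, sec1_eq, sec_sec]

theorem portf_lam {ξ0 ξ : ℕ → X} {g : TA X} (hg : Arr ξ g) : portf (psi ξ0) (lam ξ0 ξ g) = g := by
  ext v : 1
  rcases split_ray ξ v with h | ⟨n, x, w, hx, rfl⟩
  · change (psi ξ0 (secw (psi ξ0) v (lam ξ0 ξ g))).perm = g v
    rw [h, secw_lam_pre hg, psi_lam (Arr_sec hg _)]
    change sec g (pre ξ v.length) [] = _
    rw [sec_apply, List.append_nil]
  · have h1 : pre ξ n ++ x :: w = (pre ξ n ++ [x]) ++ w := by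
      rw [List.append_assoc]
      rfl
    rw [h1]
    change sec (portf (psi ξ0) (lam ξ0 ξ g)) (pre ξ n ++ [x]) w = sec g (pre ξ n ++ [x]) w
    rw [sec_portf, secw_lam_off hg n hx, portf_cf' (Arr_off hg n hx)]

/-- the contraction property of an element `f` along a ray -/
def Con (ξ0 : ℕ → X) (f : Cov ξ0) : Prop := ∀ ζ : ℕ → X, ∃ n, ∀ m, n ≤ m →
  Arr (sh ζ m) (sec (portf (psi ξ0) f) (pre ζ m)) ∧
    secw (psi ξ0) (pre ζ m) f = lam ξ0 (sh ζ m) (sec (portf (psi ξ0) f) (pre ζ m))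

theorem con_of {ξ0 : ℕ → X} {f : Cov ξ0} (h : ∀ ζ : ℕ → X, ∃ n,
    Arr (sh ζ n) (sec (portf (psi ξ0) f) (pre ζ n)) ∧
    secw (psi ξ0) (pre ζ n) f = lam ξ0 (sh ζ n) (sec (portf (psi ξ0) f) (pre ζ n))) :
    Con ξ0 f := by
  intro ζ
  obtain ⟨n, h1, h2⟩ := h ζ
  refine ⟨n, fun m hm => ?_⟩
  obtain ⟨k, rfl⟩ := Nat.exists_eq_add_of_le hm
  rw [pre_add, ← sec_sec, ← sh_sh, secw_append, h2]
  exact ⟨Arr_sec h1 k, secw_lam_pre h1 k⟩

theorem con_one (ξ0 : ℕ → X) : Con ξ0 1 := by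
  refine con_of fun ζ => ⟨0, ?_⟩
  rw [portf_one, sec_one, secw_one, lam_one]
  exact ⟨Arr_one _, rfl⟩

theorem con_mul {ξ0 : ℕ → X} {f g : Cov ξ0} (hf : Con ξ0 f) (hg : Con ξ0 g) :
    Con ξ0 (f * g) := by
  refine con_of fun ζ => ?_
  obtain ⟨n, hn⟩ := hg ζ
  obtain ⟨m, hm⟩ := hf (actR (portf (psi ξ0) g) ζ)
  obtain ⟨h1, h2⟩ := hn (max n m) (le_max_left _ _)
  obtain ⟨h3, h4⟩ := hm (max n m) (le_max_right _ _)
  refine ⟨max n m, ?_⟩
  rw [pre_actR] at h3 h4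
  rw [sh_actR] at h3 h4
  rw [portf_mul, sec_mul, secw_mul, h2, h4]
  exact ⟨Arr_mul h1 h3, (lam_mul h1 h3).symm⟩

theorem con_cf' {ξ0 : ℕ → X} {g : TA X} (hg : g ∈ finG X) : Con ξ0 (cf' ξ0 g) := by
  refine con_of fun ζ => ?_
  obtain ⟨k, hk⟩ := hg
  refine ⟨k, ?_⟩
  have h1 : sec g (pre ζ k) = 1 := by
    ext w : 1
    exact hk _ (by rw [List.length_append, length_pre]; omega)
  rw [portf_cf' ⟨k, hk⟩, secw_cf' ⟨k, hk⟩, h1, lam_one, cf'_one]
  exact ⟨Arr_one _, rfl⟩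

theorem con_shift {ξ0 : ℕ → X} {f : Cov ξ0} {ζ : ℕ → X} {m : ℕ}
    (h : Con ξ0 (secw (psi ξ0) (pre ζ m) f)) : ∃ n,
    Arr (sh ζ n) (sec (portf (psi ξ0) f) (pre ζ n)) ∧
    secw (psi ξ0) (pre ζ n) f = lam ξ0 (sh ζ n) (sec (portf (psi ξ0) f) (pre ζ n)) := by
  obtain ⟨n, hn⟩ := h (sh ζ m)
  obtain ⟨h1, h2⟩ := hn n le_rfl
  refine ⟨m + n, ?_⟩
  rw [pre_add, ← sec_sec, secw_append, ← sh_sh, sec_portf]
  exact ⟨h1, h2⟩

theorem con_lam {ξ0 ξ : ℕ → X} {g : TA X} (hg : Arr ξ g) : Con ξ0 (lam ξ0 ξ g) := by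
  refine con_of fun ζ => ?_
  by_cases h : ζ = ξ
  · subst h
    refine ⟨0, ?_⟩
    rw [portf_lam hg, pre_zero, sh_zero, sec_nil, secw_nil]
    exact ⟨hg, rfl⟩
  · -- the first place where the rays differ
    have hex : ∃ n, ζ n ≠ ξ n := by
      by_contra hcon
      push Not at hcon
      exact h (funext hcon)
    classical
    have hn : ζ (Nat.find hex) ≠ ξ (Nat.find hex) := Nat.find_spec hex
    have hlt : ∀ m, m < Nat.find hex → ζ m = ξ m := fun m hm => not_not.1 (Nat.find_min hex hm)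
    have hpre : pre ζ (Nat.find hex) = pre ξ (Nat.find hex) := by
      rw [pre_eq_map, pre_eq_map]
      refine List.map_congr_left fun m hm => hlt m (List.mem_range.1 hm)
    apply con_shift (m := Nat.find hex + 1)
    rw [pre_succ', hpre, secw_lam_off hg _ hn]
    exact con_cf' (Arr_off hg _ hn)

/-- every element of the cover is contracted -/
theorem con_all (ξ0 : ℕ → X) (f : Cov ξ0) : Con ξ0 f := by
  induction f using Monoid.CoprodI.induction_on with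
  | one => exact con_one ξ0
  | of i x =>
    match i, x with
    | .f, x =>
      have h1 : Con ξ0 (cf' ξ0 (x : finG X).1) := con_cf' (x : finG X).2
      rw [← cf_eq] at h1
      exact h1
    | .d, x =>
      have h1 : Con ξ0 (lam ξ0 ξ0 (x : D ξ0).1) := con_lam (x : D ξ0).2.2
      rw [lam_D (x : D ξ0).2] at h1
      exact h1
    | .t ξ h, x =>
      have h1 : Con ξ0 (tt ξ0 ξ) := by
        rw [← lam_tau]
        exact con_lam ⟨0, Ar_tau ξ0 ξ⟩
      have h2 : Con ξ0 (tt ξ0 ξ)⁻¹ := by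
        rw [← lam_tau, ← lam_inv ⟨0, Ar_tau ξ0 ξ⟩]
        exact con_lam (Arr_inv ⟨0, Ar_tau ξ0 ξ⟩)
      have h3 : ∀ n : ℕ, Con ξ0 (tt ξ0 ξ ^ n) := by
        intro n
        induction n with
        | zero => rw [pow_zero]; exact con_one ξ0
        | succ n ih => rw [pow_succ]; exact con_mul ih h1
      have h4 : ∀ n : ℕ, Con ξ0 ((tt ξ0 ξ)⁻¹ ^ n) := by
        intro n
        induction n with
        | zero => rw [pow_zero]; exact con_one ξ0
        | succ n ih => rw [pow_succ]; exact con_mul ih h2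
      have h5 : ∀ n : ℤ, Con ξ0 (tt ξ0 ξ ^ n) := by
        intro n
        rcases Int.eq_nat_or_neg n with ⟨k, rfl | rfl⟩
        · rw [zpow_natCast]; exact h3 k
        · rw [zpow_neg, ← inv_zpow, zpow_natCast]; exact h4 k
      obtain ⟨z, hz⟩ : ∃ z : ℤ, (x : Gr ξ0 (Ix.t ξ h)) = (Multiplicative.ofAdd z : Multiplicative ℤ) :=
        ⟨Multiplicative.toAdd (show Multiplicative ℤ from x), rfl⟩
      have h6 : (Monoid.CoprodI.of (M := Gr ξ0) (i := Ix.t ξ h) x : Cov ξ0) = tt ξ0 ξ ^ z := by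
        unfold tt
        rw [dif_neg h, ← map_zpow, hz]
        change ct ξ0 ξ h (Multiplicative.ofAdd z) = ct ξ0 ξ h (Multiplicative.ofAdd (1 : ℤ) ^ z)
        congr 1
        rw [← ofAdd_zsmul]
        simp
      rw [h6]
      exact h5 _
  | mul f g hf hg => exact con_mul hf hg

/-- elements of the cover which act trivially have trivial sections on some level -/
theorem trivial_sections [Finite X] (ξ0 : ℕ → X) (f : Cov ξ0) (hf : port (psi ξ0) f = 1) :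
    ∃ n, ∀ v : List X, v.length = n → secw (psi ξ0) v f = 1 := by
  refine koenig (fun v => secw (psi ξ0) v f = 1) ?_ ?_
  · intro v w hv
    rw [secw_append, hv, secw_one]
  · intro ζ
    obtain ⟨n, hn⟩ := con_all ξ0 f ζ
    obtain ⟨-, h2⟩ := hn n le_rfl
    refine ⟨n, ?_⟩
    rw [h2]
    rw [port_apply] at hf
    rw [hf, sec_one, lam_one]

theorem Gr_mem {C : (G : Type) → [Group G] → Prop} (hC : Inherits C) [Finite X] (ξ0 : ℕ → X) :
    ∀ i : Ix ξ0, C (Gr ξ0 i)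
  | .f => finG_mem hC
  | .d => D_mem hC ξ0
  | .t _ _ => hC.int

theorem range_mem {C : (G : Type) → [Group G] → Prop} (hC : Inherits C) [Finite X] (ξ0 : ℕ → X) :
    C (port (psi ξ0)).range :=
  port_range_mem (psi ξ0) hC (hC.coprodI (Gr_mem hC ξ0)) (trivial_sections ξ0)

/-- the generators -/
def Gen (X : Type) : Set (TA X) := {g | g ∈ finG X ∨ ∃ ξ, Arr ξ g}

theorem gen_le (ξ0 : ℕ → X) : Subgroup.closure (Gen X) ≤ (port (psi ξ0)).range := by
  rw [Subgroup.closure_le]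
  rintro g (hg | ⟨ξ, hg⟩)
  · exact ⟨cf' ξ0 g, portf_cf' hg⟩
  · exact ⟨lam ξ0 ξ g, portf_lam hg⟩

end Pool.Agent.H98.FJ
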