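import Pool.Agent.H98.FJ.Tree
import Pool.Agent.H98.FJ.Closed

/-!
# Rays, arrows between rays, isotropy groups
-/

set_option autoImplicit false

namespace Pool.Agent.H98.FJ

open TA

variable {X : Type}

/-- the prefix of length `n` of a ray -/
def pre : (ℕ → X) → ℕ → List X
  | _, 0 => []
  | ξ, n + 1 => ξ 0 :: pre (fun m => ξ (m + 1)) n

/-- the shifted ray -/
def sh (ξ : ℕ → X) (n : ℕ) : ℕ → X := fun m => ξ (n + m)

@[simp] theorem pre_zero (ξ : ℕ → X) : pre ξ 0 = [] := rfl
theorem pre_succ (ξ : ℕ → X) (n : ℕ) : pre ξ (n + 1) = ξ 0 :: pre (fun m => ξ (m + 1)) n := rfl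

theorem sh_zero (ξ : ℕ → X) : sh ξ 0 = ξ := by
  funext m
  simp [sh]

theorem sh_sh (ξ : ℕ → X) (n m : ℕ) : sh (sh ξ n) m = sh ξ (n + m) := by
  funext k
  simp [sh, add_assoc]

theorem sh_one (ξ : ℕ → X) : sh ξ 1 = fun m => ξ (m + 1) := by
  funext m
  simp [sh, add_comm]

theorem length_pre (ξ : ℕ → X) (n : ℕ) : (pre ξ n).length = n := by
  induction n generalizing ξ with
  | zero => rfl
  | succ n ih => rw [pre_succ, List.length_cons, ih]

theorem pre_add (ξ : ℕ → X) (n m : ℕ) : pre ξ (n + m) = pre ξ n ++ pre (sh ξ n) m := by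
  induction n generalizing ξ with
  | zero => rw [Nat.zero_add, pre_zero, sh_zero, List.nil_append]
  | succ n ih =>
    rw [Nat.add_right_comm, pre_succ, ih, pre_succ, List.cons_append]
    congr 3
    funext k
    simp only [sh]
    congr 1
    omega

theorem pre_one (ξ : ℕ → X) : pre ξ 1 = [ξ 0] := rfl

theorem pre_succ' (ξ : ℕ → X) (n : ℕ) : pre ξ (n + 1) = pre ξ n ++ [ξ n] := by
  rw [pre_add, pre_one]
  simp [sh]

theorem pre_eq_map (ξ : ℕ → X) (n : ℕ) : pre ξ n = (List.range n).map ξ := by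
  induction n with
  | zero => rfl
  | succ n ih => rw [pre_succ', ih, List.range_succ, List.map_append, List.map_singleton]

/-- the action on rays -/
def actR (g : TA X) (ξ : ℕ → X) : ℕ → X := fun n => g (pre ξ n) (ξ n)

theorem actR_zero (g : TA X) (ξ : ℕ → X) : actR g ξ 0 = g [] (ξ 0) := rfl

theorem pre_actR (g : TA X) (ξ : ℕ → X) (n : ℕ) : pre (actR g ξ) n = act (pre ξ n) g := by
  induction n with
  | zero => rfl
  | succ n ih =>
    rw [pre_succ', pre_succ', act_append, ih]
    congr 1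
    change [g (pre ξ n) (ξ n)] = [g (pre ξ n ++ []) (ξ n)]
    rw [List.append_nil]

theorem actR_mul (g h : TA X) (ξ : ℕ → X) : actR (g * h) ξ = actR g (actR h ξ) := by
  funext n
  change (g * h) (pre ξ n) (ξ n) = g (pre (actR h ξ) n) (h (pre ξ n) (ξ n))
  rw [pre_actR, mul_apply]
  rfl

theorem actR_one (ξ : ℕ → X) : actR 1 ξ = ξ := rfl

theorem actR_inv (g : TA X) (ξ : ℕ → X) : actR g⁻¹ (actR g ξ) = ξ := by
  rw [← actR_mul, inv_mul_cancel, actR_one]

theorem actR_inv' (g : TA X) (ξ : ℕ → X) : actR g (actR g⁻¹ ξ) = ξ := by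
  rw [← actR_mul, mul_inv_cancel, actR_one]

theorem sh_actR (g : TA X) (ξ : ℕ → X) (n : ℕ) :
    sh (actR g ξ) n = actR (sec g (pre ξ n)) (sh ξ n) := by
  funext m
  change g (pre ξ (n + m)) (ξ (n + m)) = g (pre ξ n ++ pre (sh ξ n) m) (ξ (n + m))
  rw [pre_add]

/-- finitary automorphisms of depth at most `k` -/
def Fk (k : ℕ) (g : TA X) : Prop := ∀ v : List X, k ≤ v.length → g v = 1

theorem Fk_mono {k l : ℕ} (h : k ≤ l) {g : TA X} (hg : Fk k g) : Fk l g :=
  fun v hv => hg v (h.trans hv)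

theorem Fk_mul {k : ℕ} {g h : TA X} (hg : Fk k g) (hh : Fk k h) : Fk k (g * h) := by
  intro v hv
  rw [mul_apply, hh v hv, hg _ (by rw [length_act]; exact hv), one_mul]

theorem Fk_inv {k : ℕ} {g : TA X} (hg : Fk k g) : Fk k g⁻¹ := by
  intro v hv
  rw [inv_apply, hg _ (by rw [length_act]; exact hv), inv_one]

theorem Fk_one : Fk 0 (1 : TA X) := fun _ _ => rfl

theorem Fk_sec {k : ℕ} {g : TA X} (hg : Fk k g) (v : List X) : Fk (k - v.length) (sec g v) := by
  intro w hw
  exact hg _ (by rw [List.length_append]; omega)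

/-- the group of finitary automorphisms -/
def finG (X : Type) : Subgroup (TA X) where
  carrier := {g | ∃ k, Fk k g}
  mul_mem' := by
    rintro g h ⟨k, hg⟩ ⟨l, hh⟩
    exact ⟨max k l, Fk_mul (Fk_mono (le_max_left _ _) hg) (Fk_mono (le_max_right _ _) hh)⟩
  one_mem' := ⟨0, Fk_one⟩
  inv_mem' := by
    rintro g ⟨k, hg⟩
    exact ⟨k, Fk_inv hg⟩

theorem mem_finG {g : TA X} : g ∈ finG X ↔ ∃ k, Fk k g := Iff.rfl

theorem finG_sec {g : TA X} (hg : g ∈ finG X) (v : List X) : sec g v ∈ finG X := by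
  obtain ⟨k, hk⟩ := hg
  exact ⟨_, Fk_sec hk v⟩

/-- arrows with source `ξ`: off the ray the sections are finitary of depth at most `k` -/
def Ar (k : ℕ) (ξ : ℕ → X) (g : TA X) : Prop :=
  ∀ (n : ℕ) (x : X) (w : List X), x ≠ ξ n → k ≤ w.length → g (pre ξ n ++ x :: w) = 1

theorem Ar_mono {k l : ℕ} (h : k ≤ l) {ξ : ℕ → X} {g : TA X} (hg : Ar k ξ g) : Ar l ξ g :=
  fun n x w hx hw => hg n x w hx (h.trans hw)

theorem Ar_one (ξ : ℕ → X) : Ar 0 ξ 1 := fun _ _ _ _ _ => rfl

/-- the image of a vertex off the ray -/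
theorem act_off (g : TA X) (ξ : ℕ → X) (n : ℕ) (x : X) (w : List X) (hx : x ≠ ξ n) :
    ∃ x' w', x' ≠ actR g ξ n ∧ w'.length = w.length ∧
      act (pre ξ n ++ x :: w) g = pre (actR g ξ) n ++ x' :: w' := by
  refine ⟨g (pre ξ n) x, act w (sec1 (sec g (pre ξ n)) x), ?_, ?_, ?_⟩
  · intro h
    exact hx ((g (pre ξ n)).injective h)
  · exact length_act _ _
  · rw [act_append, pre_actR, act_cons]
    congr 2
    change g (pre ξ n ++ []) x = _
    rw [List.append_nil]

theorem Ar_mul {k : ℕ} {ξ : ℕ → X} {g h : TA X} (hh : Ar k ξ h) (hg : Ar k (actR h ξ) g) :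
    Ar k ξ (g * h) := by
  intro n x w hx hw
  rw [mul_apply, hh n x w hx hw, mul_one]
  obtain ⟨x', w', hx', hw', he⟩ := act_off h ξ n x w hx
  rw [he]
  exact hg n x' w' hx' (by rw [hw']; exact hw)

theorem Ar_inv {k : ℕ} {ξ : ℕ → X} {g : TA X} (hg : Ar k ξ g) : Ar k (actR g ξ) g⁻¹ := by
  intro n x w hx hw
  rw [inv_apply]
  obtain ⟨x', w', hx', hw', he⟩ := act_off g⁻¹ (actR g ξ) n x w hx
  rw [actR_inv] at hx' he
  rw [he, hg n x' w' hx' (by rw [hw']; exact hw), inv_one]

/-- all arrows with source `ξ` -/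
def Arr (ξ : ℕ → X) (g : TA X) : Prop := ∃ k, Ar k ξ g

theorem Arr_one (ξ : ℕ → X) : Arr ξ 1 := ⟨0, Ar_one ξ⟩

theorem Arr_mul {ξ : ℕ → X} {g h : TA X} (hh : Arr ξ h) (hg : Arr (actR h ξ) g) :
    Arr ξ (g * h) := by
  obtain ⟨k, hk⟩ := hh
  obtain ⟨l, hl⟩ := hg
  exact ⟨max k l, Ar_mul (Ar_mono (le_max_left _ _) hk) (Ar_mono (le_max_right _ _) hl)⟩

theorem Arr_inv {ξ : ℕ → X} {g : TA X} (hg : Arr ξ g) : Arr (actR g ξ) g⁻¹ := by
  obtain ⟨k, hk⟩ := hg
  exact ⟨k, Ar_inv hk⟩

theorem Arr_sec {ξ : ℕ → X} {g : TA X} (hg : Arr ξ g) (n : ℕ) :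
    Arr (sh ξ n) (sec g (pre ξ n)) := by
  obtain ⟨k, hk⟩ := hg
  refine ⟨k, fun m x w hx hw => ?_⟩
  rw [sec_apply, ← List.append_assoc, ← pre_add]
  exact hk (n + m) x w hx hw

theorem Arr_off {ξ : ℕ → X} {g : TA X} (hg : Arr ξ g) (n : ℕ) {x : X} (hx : x ≠ ξ n) :
    sec g (pre ξ n ++ [x]) ∈ finG X := by
  obtain ⟨k, hk⟩ := hg
  refine ⟨k, fun w hw => ?_⟩
  rw [sec_apply, List.append_assoc]
  exact hk n x w hx hw

theorem Arr_of_finG {g : TA X} (hg : g ∈ finG X) (ξ : ℕ → X) : Arr ξ g := by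
  obtain ⟨k, hk⟩ := hg
  refine ⟨k, fun n x w _ hw => hk _ ?_⟩
  rw [List.length_append, List.length_cons]
  omega

/-- the isotropy group of a ray -/
def D (ξ : ℕ → X) : Subgroup (TA X) where
  carrier := {g | actR g ξ = ξ ∧ Arr ξ g}
  mul_mem' := by
    rintro g h ⟨hg1, hg2⟩ ⟨hh1, hh2⟩
    refine ⟨?_, Arr_mul hh2 (by rw [hh1]; exact hg2)⟩
    rw [actR_mul, hh1, hg1]
  one_mem' := ⟨rfl, Arr_one ξ⟩
  inv_mem' := by
    rintro g ⟨hg1, hg2⟩
    have h1 := Arr_inv hg2
    rw [hg1] at h1
    refine ⟨?_, h1⟩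
    have h2 := actR_inv g ξ
    rw [hg1] at h2
    exact h2

theorem mem_D {ξ : ℕ → X} {g : TA X} : g ∈ D ξ ↔ actR g ξ = ξ ∧ Arr ξ g := Iff.rfl

/-- Koenig -/
theorem koenig [Finite X] (T : List X → Prop) (her : ∀ v w, T v → T (v ++ w))
    (h : ∀ ζ : ℕ → X, ∃ n, T (pre ζ n)) : ∃ N, ∀ v : List X, v.length = N → T v := by
  by_contra hcon
  push Not at hcon
  -- bad vertices
  let bad : List X → Prop := fun v => ∀ N, ∃ w : List X, w.length = N ∧ ¬ T (v ++ w)
  have hroot : bad [] := fun N => by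
    obtain ⟨w, hw1, hw2⟩ := hcon N
    exact ⟨w, hw1, hw2⟩
  have hstep : ∀ v, bad v → ∃ x, bad (v ++ [x]) := by
    intro v hv
    by_contra h1
    push Not at h1
    have h2 : ∀ x, ∃ N, ∀ w : List X, w.length = N → T (v ++ [x] ++ w) := by
      intro x
      by_contra h3
      push Not at h3
      exact h1 x h3
    choose N hN using h2
    have := Fintype.ofFinite X
    obtain ⟨w, hw1, hw2⟩ := hv (Finset.univ.sup N + 1)
    cases w with
    | nil => simp at hw1
    | cons x w =>
      rw [List.length_cons, Nat.add_right_cancel_iff] at hw1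
      have hle : N x ≤ w.length := by
        rw [hw1]
        exact Finset.le_sup (Finset.mem_univ x)
      have h3 := hN x (w.take (N x)) (by rw [List.length_take, min_eq_left hle])
      have h4 := her _ (w.drop (N x)) h3
      rw [List.append_assoc, List.take_append_drop, List.append_assoc] at h4
      exact hw2 h4
  have hne : Nonempty X := ⟨(hstep [] hroot).choose⟩
  choose! nx hnx using hstep
  -- the ray
  let vs : ℕ → List X := fun n => Nat.rec [] (fun _ v => v ++ [nx v]) n
  have hvs : ∀ n, vs (n + 1) = vs n ++ [nx (vs n)] := fun n => rfl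
  have hbad : ∀ n, bad (vs n) := by
    intro n
    induction n with
    | zero => exact hroot
    | succ n ih =>
      rw [hvs]
      exact hnx _ ih
  let ζ : ℕ → X := fun n => nx (vs n)
  have hζ : ∀ n, pre ζ n = vs n := by
    intro n
    induction n with
    | zero => rfl
    | succ n ih => rw [pre_succ', ih, hvs]
  obtain ⟨n, hn⟩ := h ζ
  obtain ⟨w, hw1, hw2⟩ := hbad n 0
  rw [List.length_eq_zero_iff] at hw1
  rw [hw1, List.append_nil, ← hζ] at hw2
  exact hw2 hn

/-- powers of a finite group over an arbitrary index set: every finite subset lies in a finite subgroup -/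
theorem pow_locallyFinite {J Q : Type} [Group Q] [Finite Q] (s : Finset (J → Q)) :
    ∃ K : Subgroup (J → Q), Finite K ∧ (s : Set (J → Q)) ⊆ K := by
  let Θ : ((s → Q) → Q) →* (J → Q) :=
    { toFun := fun φ j => φ (fun f => f.1 j)
      map_one' := rfl
      map_mul' := fun _ _ => rfl }
  refine ⟨Θ.range, ?_, ?_⟩
  · have : Finite ((s → Q) → Q) := inferInstance
    exact Set.finite_range Θ
  · intro f hf
    exact ⟨fun u => u ⟨f, hf⟩, rfl⟩

/-- the elements of `D ξ` of depth `k` -/
def Dk (ξ : ℕ → X) (k : ℕ) : Subgroup (TA X) where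
  carrier := {g | actR g ξ = ξ ∧ Ar k ξ g}
  mul_mem' := by
    rintro g h ⟨hg1, hg2⟩ ⟨hh1, hh2⟩
    refine ⟨?_, Ar_mul hh2 (by rw [hh1]; exact hg2)⟩
    rw [actR_mul, hh1, hg1]
  one_mem' := ⟨rfl, Ar_mono (Nat.zero_le k) (Ar_one ξ)⟩
  inv_mem' := by
    rintro g ⟨hg1, hg2⟩
    have h1 := Ar_inv hg2
    rw [hg1] at h1
    refine ⟨?_, h1⟩
    have h2 := actR_inv g ξ
    rw [hg1] at h2
    exact h2

theorem act_pre_of_mem {ξ : ℕ → X} {k : ℕ} {g : TA X} (hg : g ∈ Dk ξ k) (n : ℕ) :
    act (pre ξ n) g = pre ξ n := by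
  rw [← pre_actR, hg.1]

/-- the sequence of the actions of the sections along the ray on a level -/
def seqHom (ξ : ℕ → X) (k : ℕ) :
    Dk ξ k →* (ℕ → Equiv.Perm {v : List X // v.length = k + 1}) where
  toFun g := fun n => levHom (k + 1) (sec g.1 (pre ξ n))
  map_one' := by
    funext n
    exact map_one (levHom (k + 1))
  map_mul' g h := by
    funext n
    change levHom (k + 1) (sec (g.1 * h.1) (pre ξ n)) = _
    rw [sec_mul, act_pre_of_mem h.2, map_mul]
    rfl

/-- a list is a prefix of the ray or leaves it -/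
theorem split_ray (ξ : ℕ → X) (v : List X) :
    v = pre ξ v.length ∨ ∃ n x w, x ≠ ξ n ∧ v = pre ξ n ++ x :: w := by
  induction v using List.reverseRecOn with
  | nil => exact Or.inl rfl
  | append_singleton v x ih =>
    rcases ih with h | ⟨n, y, w, hy, h⟩
    · by_cases hx : x = ξ v.length
      · left
        rw [List.length_append, List.length_singleton, pre_succ', ← h, hx]
      · right
        exact ⟨v.length, x, [], hx, by rw [← h]⟩
    · right
      refine ⟨n, y, w ++ [x], hy, ?_⟩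
      rw [h, List.append_assoc, List.cons_append]

theorem seqHom_injective (ξ : ℕ → X) (k : ℕ) : Function.Injective (seqHom ξ k) := by
  rw [injective_iff_map_eq_one]
  intro g hg
  apply Subtype.ext
  have hlev : ∀ n (v : List X), v.length = k + 1 → act v (sec g.1 (pre ξ n)) = v := by
    intro n v hv
    have h1 := congrFun hg n
    have h2 := congrArg (fun p : Equiv.Perm {v : List X // v.length = k + 1} => (p ⟨v, hv⟩).1) h1
    exact h2
  have key : ∀ n (u : List X) (x : X), u.length ≤ k → g.1 (pre ξ n ++ u) x = x := by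
    intro n u x hu
    have h1 := hlev n (u ++ x :: List.replicate (k - u.length) x) (by
      rw [List.length_append, List.length_cons, List.length_replicate]
      omega)
    rw [act_append] at h1
    have h2 := (List.append_inj h1 (length_act _ _)).2
    rw [act_cons] at h2
    have h3 := (List.cons.inj h2).1
    rw [sec_sec, sec_apply, List.append_nil] at h3
    exact h3
  ext v x : 2
  rcases split_ray ξ v with h | ⟨n, y, w, hy, h⟩
  · rw [h]
    have := key v.length [] x (Nat.zero_le k)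
    rwa [List.append_nil] at this
  · rw [h]
    rcases le_or_gt k w.length with hw | hw
    · rw [g.2.2 n y w hy hw]
      rfl
    · exact key n (y :: w) x (by rw [List.length_cons]; omega)

/-- the isotropy groups are locally finite, hence in the class -/
theorem D_mem {C : (G : Type) → [Group G] → Prop} (hC : Inherits C) [Finite X] (ξ : ℕ → X) :
    C (D ξ) := by
  classical
  refine hC.locallyFinite fun s => ?_
  -- a common depth
  have hk : ∃ k, ∀ g ∈ s, Ar k ξ g.1 := by
    induction s using Finset.induction_on with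
    | empty => exact ⟨0, by simp⟩
    | insert g s _ ih =>
      obtain ⟨k, hk⟩ := ih
      obtain ⟨l, hl⟩ := g.2.2
      refine ⟨max k l, fun h hh => ?_⟩
      rw [Finset.mem_insert] at hh
      rcases hh with rfl | hh
      · exact Ar_mono (le_max_right _ _) hl
      · exact Ar_mono (le_max_left _ _) (hk h hh)
  obtain ⟨k, hk⟩ := hk
  have : Finite {v : List X // v.length = k + 1} := (List.finite_length_eq X (k + 1)).to_subtype
  have hQ : Finite (Equiv.Perm {v : List X // v.length = k + 1}) := inferInstance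
  let t : Finset (ℕ → Equiv.Perm {v : List X // v.length = k + 1}) :=
    s.attach.image fun g => seqHom ξ k ⟨g.1.1, g.1.2.1, hk g.1 g.2⟩
  obtain ⟨K, hK, ht⟩ := pow_locallyFinite t
  -- pull back
  let K' : Subgroup (TA X) := (K.comap (seqHom ξ k)).map (Dk ξ k).subtype
  have hK' : Finite K' := by
    have h1 : Finite (K.comap (seqHom ξ k)) := by
      have hinj : Function.Injective (fun g : K.comap (seqHom ξ k) => (⟨seqHom ξ k g.1, g.2⟩ : K)) := by
        intro a b hab
        exact Subtype.ext (seqHom_injective ξ k (congrArg Subtype.val hab))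
      exact Finite.of_injective _ hinj
    exact Finite.of_surjective (fun g : K.comap (seqHom ξ k) =>
      (⟨(Dk ξ k).subtype g.1, Subgroup.mem_map_of_mem _ g.2⟩ : K')) (by
        rintro ⟨y, hy⟩
        obtain ⟨x, hx, rfl⟩ := Subgroup.mem_map.1 hy
        exact ⟨⟨x, hx⟩, rfl⟩)
  refine ⟨K'.comap (D ξ).subtype, ?_, ?_⟩
  · exact Finite.of_injective (fun g : K'.comap (D ξ).subtype => (⟨(D ξ).subtype g.1, g.2⟩ : K')) (by
      intro a b hab
      apply Subtype.ext
      apply Subtype.ext
      have h1 := congrArg (fun z : K' => z.1) hab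
      exact h1)
  · intro g hg
    have hg' : g ∈ s := hg
    change (D ξ).subtype g ∈ K'
    refine Subgroup.mem_map.2 ⟨⟨g.1, g.2.1, hk g hg'⟩, ?_, rfl⟩
    apply ht
    exact Finset.mem_coe.2 (Finset.mem_image.2 ⟨⟨g, hg'⟩, Finset.mem_attach _ _, rfl⟩)

/-- the finitary group is locally finite, hence in the class -/
theorem finG_mem {C : (G : Type) → [Group G] → Prop} (hC : Inherits C) [Finite X] :
    C (finG X) := by
  classical
  refine hC.locallyFinite fun s => ?_
  have hk : ∃ k, ∀ g ∈ s, Fk k g.1 := by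
    induction s using Finset.induction_on with
    | empty => exact ⟨0, by simp⟩
    | insert g s _ ih =>
      obtain ⟨k, hk⟩ := ih
      obtain ⟨l, hl⟩ := g.2
      refine ⟨max k l, fun h hh => ?_⟩
      rw [Finset.mem_insert] at hh
      rcases hh with rfl | hh
      · exact Fk_mono (le_max_right _ _) hl
      · exact Fk_mono (le_max_left _ _) (hk h hh)
  obtain ⟨k, hk⟩ := hk
  have hf : Finite {v : List X // v.length = k} := (List.finite_length_eq X k).to_subtype
  let K : Subgroup (finG X) :=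
    { carrier := {g | Fk k g.1}
      mul_mem' := fun ha hb => Fk_mul ha hb
      one_mem' := Fk_mono (Nat.zero_le k) Fk_one
      inv_mem' := fun ha => Fk_inv ha }
  refine ⟨K, ?_, fun g hg => hk g hg⟩
  -- elements of K are determined by the action on level k
  refine Finite.of_injective (fun g : K => levHom k g.1.1) ?_
  intro a b hab
  apply Subtype.ext
  apply Subtype.ext
  have h1 : ∀ v : List X, v.length = k → act v a.1.1 = act v b.1.1 := fun v hv =>
    congrArg (fun p : Equiv.Perm {v : List X // v.length = k} => (p ⟨v, hv⟩).1) hab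
  ext v x : 2
  rcases le_or_gt k v.length with hv | hv
  · rw [a.2 v hv, b.2 v hv]
  · have h2 := h1 (v ++ x :: List.replicate (k - v.length - 1) x) (by
      rw [List.length_append, List.length_cons, List.length_replicate]
      omega)
    rw [act_append, act_append] at h2
    have h3 := (List.append_inj h2 (by rw [length_act, length_act])).2
    rw [act_cons, act_cons] at h3
    have h4 := (List.cons.inj h3).1
    rw [sec_apply, sec_apply, List.append_nil] at h4
    exact h4

end Pool.Agent.H98.FJ
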