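import Pool.Agent.H98.FJ.Wr
import Pool.Agent.H98.FJ.Rays

/-!
# The cover of the group generated by the finitary automorphisms and the arrows
-/

set_option autoImplicit false

namespace Pool.Agent.H98.FJ

open TA

variable {X : Type}

open Classical in
/-- a standard arrow from `ξ0` to `ξ` -/
noncomputable def tau (ξ0 ξ : ℕ → X) : TA X := fun v =>
  if v = pre ξ0 v.length then Equiv.swap (ξ0 v.length) (ξ v.length) else 1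

theorem actR_tau (ξ0 ξ : ℕ → X) : actR (tau ξ0 ξ) ξ0 = ξ := by
  funext n
  unfold actR tau
  rw [length_pre, if_pos rfl]
  exact @Equiv.swap_apply_left X (fun a b => Classical.propDecidable (a = b)) (ξ0 n) (ξ n)

theorem pre_ne (ξ : ℕ → X) (n : ℕ) (x : X) (w : List X) (hx : x ≠ ξ n) (m : ℕ) :
    pre ξ n ++ x :: w ≠ pre ξ m := by
  intro h
  have hlen := congrArg List.length h
  rw [List.length_append, List.length_cons, length_pre, length_pre] at hlen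
  obtain ⟨k, rfl⟩ : ∃ k, m = n + (k + 1) := ⟨w.length, by omega⟩
  rw [pre_add, pre_succ] at h
  have h1 := List.append_cancel_left h
  have h2 := (List.cons.inj h1).1
  apply hx
  rw [h2]
  simp [sh]

theorem Ar_tau (ξ0 ξ : ℕ → X) : Ar 0 ξ0 (tau ξ0 ξ) := by
  intro n x w hx _
  unfold tau
  rw [if_neg (pre_ne ξ0 n x w hx _)]

theorem tau_self (ξ0 : ℕ → X) : tau ξ0 ξ0 = 1 := by
  ext v : 1
  unfold tau
  split_ifs
  · exact @Equiv.swap_self X (fun a b => Classical.propDecidable (a = b)) _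
  · rfl

/-- index set of the free product -/
inductive Ix (ξ0 : ℕ → X) : Type
  | f : Ix ξ0
  | d : Ix ξ0
  | t : (ξ : ℕ → X) → ξ ≠ ξ0 → Ix ξ0

/-- the factors: finitary automorphisms, isotropy group, infinite cyclic groups -/
def Gr (ξ0 : ℕ → X) : Ix ξ0 → Type
  | .f => finG X
  | .d => D ξ0
  | .t _ _ => Multiplicative ℤ

instance instGr (ξ0 : ℕ → X) : (i : Ix ξ0) → Group (Gr ξ0 i)
  | .f => inferInstanceAs (Group (finG X))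
  | .d => inferInstanceAs (Group (D ξ0))
  | .t _ _ => inferInstanceAs (Group (Multiplicative ℤ))

/-- the cover -/
abbrev Cov (ξ0 : ℕ → X) : Type := Monoid.CoprodI (Gr ξ0)

/-- the finitary letters -/
def cf (ξ0 : ℕ → X) : finG X →* Cov ξ0 := Monoid.CoprodI.of (M := Gr ξ0) (i := Ix.f)

/-- the isotropy letters -/
def cd (ξ0 : ℕ → X) : D ξ0 →* Cov ξ0 := Monoid.CoprodI.of (M := Gr ξ0) (i := Ix.d)

/-- the free letters -/
def ct (ξ0 : ℕ → X) (ξ : ℕ → X) (h : ξ ≠ ξ0) : Multiplicative ℤ →* Cov ξ0 :=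
  Monoid.CoprodI.of (M := Gr ξ0) (i := Ix.t ξ h)

open Classical in
/-- the letter of the standard arrow -/
noncomputable def tt (ξ0 ξ : ℕ → X) : Cov ξ0 :=
  if h : ξ = ξ0 then 1 else ct ξ0 ξ h (Multiplicative.ofAdd 1)

theorem tt_self (ξ0 : ℕ → X) : tt ξ0 ξ0 = 1 := dif_pos rfl

theorem red_mem {ξ0 ξ : ℕ → X} {g : TA X} (hg : Arr ξ g) :
    (tau ξ0 (actR g ξ))⁻¹ * g * tau ξ0 ξ ∈ D ξ0 := by
  have h1 : Arr ξ0 (g * tau ξ0 ξ) :=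
    Arr_mul ⟨0, Ar_tau ξ0 ξ⟩ (by rw [actR_tau]; exact hg)
  have h2 : Arr (actR (g * tau ξ0 ξ) ξ0) (tau ξ0 (actR g ξ))⁻¹ := by
    have h3 := Arr_inv ⟨0, Ar_tau ξ0 (actR g ξ)⟩
    rw [actR_tau] at h3
    rw [actR_mul, actR_tau]
    exact h3
  constructor
  · rw [actR_mul, actR_mul, actR_tau]
    have h4 := actR_inv (tau ξ0 (actR g ξ)) ξ0
    rw [actR_tau] at h4
    exact h4
  · rw [mul_assoc]
    exact Arr_mul h1 h2

open Classical in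
/-- the letter of an arrow -/
noncomputable def lam (ξ0 ξ : ℕ → X) (g : TA X) : Cov ξ0 :=
  if h : Arr ξ g then
    tt ξ0 (actR g ξ) * cd ξ0 ⟨(tau ξ0 (actR g ξ))⁻¹ * g * tau ξ0 ξ, red_mem h⟩ * (tt ξ0 ξ)⁻¹
  else 1

theorem lam_def {ξ0 ξ : ℕ → X} {g : TA X} (h : Arr ξ g) : lam ξ0 ξ g =
    tt ξ0 (actR g ξ) * cd ξ0 ⟨(tau ξ0 (actR g ξ))⁻¹ * g * tau ξ0 ξ, red_mem h⟩ * (tt ξ0 ξ)⁻¹ :=
  dif_pos h

theorem lam_one (ξ0 ξ : ℕ → X) : lam ξ0 ξ 1 = 1 := by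
  rw [lam_def (Arr_one ξ)]
  have h1 : (⟨(tau ξ0 (actR 1 ξ))⁻¹ * 1 * tau ξ0 ξ, red_mem (Arr_one ξ)⟩ : D ξ0) = 1 := by
    apply Subtype.ext
    change (tau ξ0 (actR 1 ξ))⁻¹ * 1 * tau ξ0 ξ = 1
    rw [actR_one, mul_one, inv_mul_cancel]
  rw [h1, map_one, mul_one, actR_one, mul_inv_cancel]

theorem lam_mul {ξ0 ξ : ℕ → X} {g h : TA X} (hh : Arr ξ h) (hg : Arr (actR h ξ) g) :
    lam ξ0 ξ (g * h) = lam ξ0 (actR h ξ) g * lam ξ0 ξ h := by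
  rw [lam_def hh, lam_def hg, lam_def (Arr_mul hh hg)]
  have h1 : (⟨(tau ξ0 (actR (g * h) ξ))⁻¹ * (g * h) * tau ξ0 ξ, red_mem (Arr_mul hh hg)⟩ : D ξ0) =
      ⟨(tau ξ0 (actR g (actR h ξ)))⁻¹ * g * tau ξ0 (actR h ξ), red_mem hg⟩ *
      ⟨(tau ξ0 (actR h ξ))⁻¹ * h * tau ξ0 ξ, red_mem hh⟩ := by
    apply Subtype.ext
    change (tau ξ0 (actR (g * h) ξ))⁻¹ * (g * h) * tau ξ0 ξ =
      ((tau ξ0 (actR g (actR h ξ)))⁻¹ * g * tau ξ0 (actR h ξ)) *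
      ((tau ξ0 (actR h ξ))⁻¹ * h * tau ξ0 ξ)
    rw [actR_mul]
    group
  rw [h1, map_mul, actR_mul]
  group

theorem lam_D {ξ0 : ℕ → X} {g : TA X} (hg : g ∈ D ξ0) : lam ξ0 ξ0 g = cd ξ0 ⟨g, hg⟩ := by
  rw [lam_def hg.2, tt_self, inv_one, mul_one]
  have h1 : (⟨(tau ξ0 (actR g ξ0))⁻¹ * g * tau ξ0 ξ0, red_mem hg.2⟩ : D ξ0) = ⟨g, hg⟩ := by
    apply Subtype.ext
    change (tau ξ0 (actR g ξ0))⁻¹ * g * tau ξ0 ξ0 = g
    rw [hg.1, tau_self, inv_one, one_mul, mul_one]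
  rw [h1, hg.1, tt_self, one_mul]

theorem lam_tau (ξ0 ξ : ℕ → X) : lam ξ0 ξ0 (tau ξ0 ξ) = tt ξ0 ξ := by
  have hT : Arr ξ0 (tau ξ0 ξ) := ⟨0, Ar_tau ξ0 ξ⟩
  rw [lam_def hT, tt_self, inv_one, mul_one]
  have h1 : (⟨(tau ξ0 (actR (tau ξ0 ξ) ξ0))⁻¹ * tau ξ0 ξ * tau ξ0 ξ0, red_mem hT⟩ : D ξ0) = 1 := by
    apply Subtype.ext
    change (tau ξ0 (actR (tau ξ0 ξ) ξ0))⁻¹ * tau ξ0 ξ * tau ξ0 ξ0 = 1
    rw [actR_tau, tau_self, inv_mul_cancel, mul_one]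
  rw [h1, map_one, mul_one, actR_tau]

theorem lam_inv {ξ0 ξ : ℕ → X} {g : TA X} (hg : Arr ξ g) :
    lam ξ0 (actR g ξ) g⁻¹ = (lam ξ0 ξ g)⁻¹ := by
  have h1 := lam_mul (ξ0 := ξ0) hg (Arr_inv hg)
  rw [inv_mul_cancel, lam_one] at h1
  exact (inv_eq_of_mul_eq_one_left h1.symm).symm

open Classical in
/-- finitary letters for all automorphisms (junk if not finitary) -/
noncomputable def cf' (ξ0 : ℕ → X) (g : TA X) : Cov ξ0 := if h : g ∈ finG X then cf ξ0 ⟨g, h⟩ else 1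

theorem cf'_def {ξ0 : ℕ → X} {g : TA X} (h : g ∈ finG X) : cf' ξ0 g = cf ξ0 ⟨g, h⟩ := dif_pos h

theorem cf'_one (ξ0 : ℕ → X) : cf' ξ0 1 = 1 := by
  rw [cf'_def (one_mem _)]
  exact map_one _

theorem cf'_mul {ξ0 : ℕ → X} {g h : TA X} (hg : g ∈ finG X) (hh : h ∈ finG X) :
    cf' ξ0 (g * h) = cf' ξ0 g * cf' ξ0 h := by
  rw [cf'_def hg, cf'_def hh, cf'_def (mul_mem hg hh), ← map_mul]
  rfl

open Classical in
/-- the self-similarity for arrows -/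
noncomputable def Psi (ξ0 ξ : ℕ → X) (g : TA X) : Wr (Cov ξ0) X :=
  ⟨fun x => if x = ξ 0 then lam ξ0 (sh ξ 1) (sec1 g x) else cf' ξ0 (sec1 g x), g []⟩

theorem Arr_sec1 {ξ : ℕ → X} {g : TA X} (hg : Arr ξ g) : Arr (sh ξ 1) (sec1 g (ξ 0)) :=
  Arr_sec hg 1

theorem Arr_off1 {ξ : ℕ → X} {g : TA X} (hg : Arr ξ g) {x : X} (hx : x ≠ ξ 0) :
    sec1 g x ∈ finG X := Arr_off hg 0 hx

theorem sh_actR1 (g : TA X) (ξ : ℕ → X) : sh (actR g ξ) 1 = actR (sec1 g (ξ 0)) (sh ξ 1) :=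
  sh_actR g ξ 1

theorem Psi_one (ξ0 ξ : ℕ → X) : Psi ξ0 ξ 1 = 1 := by
  refine Wr.ext (funext fun x => ?_) rfl
  unfold Psi
  simp only [sec1_one, Wr.one_sec]
  split_ifs
  · exact lam_one _ _
  · exact cf'_one _

theorem Psi_mul {ξ0 ξ : ℕ → X} {g h : TA X} (hh : Arr ξ h) (hg : Arr (actR h ξ) g) :
    Psi ξ0 ξ (g * h) = Psi ξ0 (actR h ξ) g * Psi ξ0 ξ h := by
  refine Wr.ext (funext fun x => ?_) rfl
  rw [Wr.mul_sec]
  unfold Psi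
  simp only [sec1_mul, actR_zero]
  by_cases hx : x = ξ 0
  · subst hx
    rw [if_pos rfl, if_pos rfl, if_pos rfl, sh_actR1]
    refine lam_mul (Arr_sec1 hh) ?_
    rw [← sh_actR1]
    exact Arr_sec1 hg
  · have h1 : h [] x ≠ h [] (ξ 0) := fun h2 => hx ((h []).injective h2)
    rw [if_neg hx, if_neg h1, if_neg hx]
    exact cf'_mul (Arr_off1 hg h1) (Arr_off1 hh hx)

theorem Psi_inv {ξ0 ξ : ℕ → X} {g : TA X} (hg : Arr ξ g) :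
    Psi ξ0 (actR g ξ) g⁻¹ = (Psi ξ0 ξ g)⁻¹ := by
  have h1 := Psi_mul (ξ0 := ξ0) hg (Arr_inv hg)
  rw [inv_mul_cancel, Psi_one] at h1
  exact (inv_eq_of_mul_eq_one_left h1.symm).symm

/-- the self-similarity on the finitary letters -/
noncomputable def psiF (ξ0 : ℕ → X) : finG X →* Wr (Cov ξ0) X where
  toFun g := ⟨fun x => cf' ξ0 (sec1 g.1 x), g.1 []⟩
  map_one' := by
    refine Wr.ext (funext fun x => ?_) rfl
    exact cf'_one _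
  map_mul' g h := by
    refine Wr.ext (funext fun x => ?_) rfl
    rw [Wr.mul_sec]
    change cf' ξ0 (sec1 (g.1 * h.1) x) = cf' ξ0 (sec1 g.1 (h.1 [] x)) * cf' ξ0 (sec1 h.1 x)
    rw [sec1_mul]
    exact cf'_mul (finG_sec g.2 [_]) (finG_sec h.2 [_])

/-- the self-similarity on the isotropy letters -/
noncomputable def psiD (ξ0 : ℕ → X) : D ξ0 →* Wr (Cov ξ0) X where
  toFun g := Psi ξ0 ξ0 g.1
  map_one' := Psi_one _ _
  map_mul' g h := by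
    have := Psi_mul (ξ0 := ξ0) h.2.2 (g := g.1) (by rw [h.2.1]; exact g.2.2)
    rw [h.2.1] at this
    exact this

/-- the self-similarity on the factors -/
noncomputable def psiI (ξ0 : ℕ → X) : (i : Ix ξ0) → Gr ξ0 i →* Wr (Cov ξ0) X
  | .f => psiF ξ0
  | .d => psiD ξ0
  | .t ξ _ => zpowersHom _ (Psi ξ0 ξ0 (tau ξ0 ξ))

/-- the self-similarity of the cover -/
noncomputable def psi (ξ0 : ℕ → X) : Cov ξ0 →* Wr (Cov ξ0) X := Monoid.CoprodI.lift (psiI ξ0)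

theorem psi_cf (ξ0 : ℕ → X) (g : finG X) : psi ξ0 (cf ξ0 g) = psiF ξ0 g :=
  Monoid.CoprodI.lift_of (M := Gr ξ0) (psiI ξ0) (i := Ix.f) g

theorem psi_cd (ξ0 : ℕ → X) (g : D ξ0) : psi ξ0 (cd ξ0 g) = Psi ξ0 ξ0 g.1 :=
  Monoid.CoprodI.lift_of (M := Gr ξ0) (psiI ξ0) (i := Ix.d) g

theorem psi_tt (ξ0 ξ : ℕ → X) : psi ξ0 (tt ξ0 ξ) = Psi ξ0 ξ0 (tau ξ0 ξ) := by
  by_cases h : ξ = ξ0
  · rw [h, tt_self, map_one, tau_self, Psi_one]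
  · unfold tt
    rw [dif_neg h]
    have h1 := Monoid.CoprodI.lift_of (M := Gr ξ0) (psiI ξ0) (i := Ix.t ξ h)
      (Multiplicative.ofAdd (1 : ℤ) : Multiplicative ℤ)
    refine h1.trans ?_
    change zpowersHom _ (Psi ξ0 ξ0 (tau ξ0 ξ)) (Multiplicative.ofAdd 1) = _
    rw [zpowersHom_apply]
    simp

theorem psi_lam {ξ0 ξ : ℕ → X} {g : TA X} (hg : Arr ξ g) :
    psi ξ0 (lam ξ0 ξ g) = Psi ξ0 ξ g := by
  rw [lam_def hg, map_mul, map_mul, map_inv, psi_cd, psi_tt, psi_tt]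
  have h1 : Psi ξ0 ξ0 ((tau ξ0 (actR g ξ))⁻¹ * g * tau ξ0 ξ) =
      (Psi ξ0 ξ0 (tau ξ0 (actR g ξ)))⁻¹ * Psi ξ0 ξ g * Psi ξ0 ξ0 (tau ξ0 ξ) := by
    have a1 : Arr ξ0 (tau ξ0 ξ) := ⟨0, Ar_tau ξ0 ξ⟩
    have a2 : Arr (actR (tau ξ0 ξ) ξ0) g := by rw [actR_tau]; exact hg
    have a3 : Arr ξ0 (g * tau ξ0 ξ) := Arr_mul a1 a2
    have a4 : Arr (actR (g * tau ξ0 ξ) ξ0) (tau ξ0 (actR g ξ))⁻¹ := by
      have h3 := Arr_inv ⟨0, Ar_tau ξ0 (actR g ξ)⟩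
      rw [actR_tau] at h3
      rw [actR_mul, actR_tau]
      exact h3
    rw [mul_assoc, Psi_mul a3 a4, Psi_mul a1 a2, actR_mul, actR_tau]
    have a5 := Psi_inv (ξ0 := ξ0) (⟨0, Ar_tau ξ0 (actR g ξ)⟩ : Arr ξ0 (tau ξ0 (actR g ξ)))
    rw [actR_tau] at a5
    rw [a5, mul_assoc]
  rw [h1]
  group

end Pool.Agent.H98.FJ
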