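import Pool.Agent.H98.FJ.Contract

/-!
# The group generated by the finitary automorphisms and the arrows
-/

set_option autoImplicit false

namespace Pool.Agent.H98.FJ

open TA

variable {X : Type}

/-- prescribed sections on the first level, trivial permutation at the root -/
def del (a : X → TA X) : TA X
  | [] => 1
  | x :: w => a x w

theorem del_nil (a : X → TA X) : del a [] = 1 := rfl
theorem del_cons (a : X → TA X) (x : X) (w : List X) : del a (x :: w) = a x w := rfl
theorem sec1_del (a : X → TA X) (x : X) : sec1 (del a) x = a x := rfl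

/-- `del` as a homomorphism -/
def delHom (X : Type) : (X → TA X) →* TA X where
  toFun := del
  map_one' := by
    ext v : 1
    cases v <;> rfl
  map_mul' a b := by
    ext v : 1
    cases v with
    | nil =>
      rw [mul_apply]
      rfl
    | cons x w =>
      rw [mul_apply, act_cons, del_nil, sec1_del]
      rfl

/-- a permutation of the letters at the root -/
def rt (σ : Equiv.Perm X) : TA X
  | [] => σ
  | _ :: _ => 1

theorem rt_mem (σ : Equiv.Perm X) : rt σ ∈ finG X := by
  refine ⟨1, fun v hv => ?_⟩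
  cases v with
  | nil => simp at hv
  | cons x w => rfl

theorem decomp (g : TA X) : g = rt (g []) * del (fun x => sec1 g x) := by
  ext v : 1
  cases v with
  | nil =>
    rw [mul_apply, act_nil, del_nil, mul_one]
    rfl
  | cons x w =>
    rw [mul_apply, act_cons]
    change _ = 1 * del (fun x => sec1 g x) (x :: w)
    rw [one_mul]
    rfl

/-- the ray `x ξ` -/
def cons (x : X) (ξ : ℕ → X) : ℕ → X
  | 0 => x
  | n + 1 => ξ n

theorem pre_cons (x : X) (ξ : ℕ → X) (n : ℕ) : pre (cons x ξ) (n + 1) = x :: pre ξ n := rfl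

open Classical in
theorem del_single_gen (x : X) {a : TA X} (ha : a ∈ Gen X) :
    del (Pi.mulSingle x a) ∈ Gen X := by
  rcases ha with ⟨k, hk⟩ | ⟨ξ, k, hk⟩
  · left
    refine ⟨k + 1, fun v hv => ?_⟩
    cases v with
    | nil => rfl
    | cons y w =>
      rw [List.length_cons] at hv
      rw [del_cons]
      by_cases h : y = x
      · subst h
        rw [Pi.mulSingle_eq_same]
        exact hk w (by omega)
      · rw [Pi.mulSingle_eq_of_ne h]
        rfl
  · right
    refine ⟨cons x ξ, k, fun n y w hy hw => ?_⟩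
    cases n with
    | zero =>
      have h : y ≠ x := hy
      rw [pre_zero, List.nil_append, del_cons, Pi.mulSingle_eq_of_ne h]
      rfl
    | succ n =>
      rw [pre_cons, List.cons_append, del_cons, Pi.mulSingle_eq_same]
      exact hk n y w hy hw

/-- the group generated by the finitary automorphisms and the arrows -/
def MM (X : Type) : Subgroup (TA X) := Subgroup.closure (Gen X)

theorem finG_le {g : TA X} (hg : g ∈ finG X) : g ∈ MM X := Subgroup.subset_closure (Or.inl hg)
theorem arr_le {g : TA X} {ξ : ℕ → X} (hg : Arr ξ g) : g ∈ MM X :=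
  Subgroup.subset_closure (Or.inr ⟨ξ, hg⟩)

open Classical in
theorem del_single_mem (x : X) {a : TA X} (ha : a ∈ MM X) : del (Pi.mulSingle x a) ∈ MM X := by
  have h1 : MM X ≤ (MM X).comap ((delHom X).comp (MonoidHom.mulSingle (fun _ : X => TA X) x)) := by
    unfold MM
    rw [Subgroup.closure_le]
    intro a ha
    exact Subgroup.subset_closure (del_single_gen x ha)
  exact h1 ha

theorem del_mem [Finite X] {a : X → TA X} (ha : ∀ x, a x ∈ MM X) : del a ∈ MM X := by
  classical
  have h1 : a ∈ (MM X).comap (delHom X) :=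
    Subgroup.pi_mem_of_mulSingle_mem a fun x => del_single_mem x (ha x)
  exact h1

theorem mem_of_sec1 [Finite X] {g : TA X} (h : ∀ x, sec1 g x ∈ MM X) : g ∈ MM X := by
  rw [decomp g]
  exact mul_mem (finG_le (rt_mem _)) (del_mem h)

theorem mem_of_level [Finite X] (n : ℕ) {g : TA X} (h : ∀ v : List X, v.length = n → sec g v ∈ MM X) :
    g ∈ MM X := by
  induction n generalizing g with
  | zero => exact h [] rfl
  | succ n ih =>
    apply mem_of_sec1
    intro x
    apply ih
    intro v hv
    exact h (x :: v) (by rw [List.length_cons, hv])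

theorem sec1_mem {g : TA X} (hg : g ∈ MM X) : ∀ x, sec1 g x ∈ MM X := by
  unfold MM at hg
  induction hg using Subgroup.closure_induction with
  | mem g hg =>
    intro x
    rcases hg with hg | ⟨ξ, hg⟩
    · exact finG_le (finG_sec hg [x])
    · by_cases hx : x = ξ 0
      · subst hx
        exact arr_le (Arr_sec1 hg)
      · exact finG_le (Arr_off1 hg hx)
  | one => exact fun x => one_mem _
  | mul f g _ _ hf hg =>
    intro x
    rw [sec1_mul]
    exact mul_mem (hf _) (hg _)
  | inv f _ hf =>
    intro x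
    rw [sec1_inv]
    exact inv_mem (hf _)

theorem sec_mem {g : TA X} (hg : g ∈ MM X) (v : List X) : sec g v ∈ MM X := by
  induction v generalizing g with
  | nil => exact hg
  | cons x v ih => exact ih (sec1_mem hg x)

/-- local membership -/
theorem mem_of_rays [Finite X] {g : TA X} (h : ∀ ζ : ℕ → X, ∃ n, sec g (pre ζ n) ∈ MM X) :
    g ∈ MM X := by
  obtain ⟨N, hN⟩ := koenig (fun v => sec g v ∈ MM X)
    (fun v w hv => by rw [← sec_sec]; exact sec_mem hv w) h
  exact mem_of_level N hN

/-- automorphisms of bounded type, in terms of portraits -/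
def BT (g : TA X) : Prop := ∃ (k : ℕ) (Ξ : Set (ℕ → X)), Ξ.Finite ∧
  ∀ v w : List X, (∀ ξ ∈ Ξ, v ≠ pre ξ v.length) → k ≤ w.length → g (v ++ w) = 1

/-- a level which separates a ray from finitely many others -/
theorem separate {Ξ : Set (ℕ → X)} (hΞ : Ξ.Finite) (ζ : ℕ → X) :
    ∃ n, ∀ ξ ∈ Ξ, ξ ≠ ζ → pre ξ n ≠ pre ζ n := by
  classical
  have h1 : ∀ ξ : ℕ → X, ∃ n, ξ ≠ ζ → ξ n ≠ ζ n := by
    intro ξ
    by_cases h : ξ = ζ
    · exact ⟨0, fun h' => absurd h h'⟩
    · obtain ⟨n, hn⟩ := Function.ne_iff.1 h
      exact ⟨n, fun _ => hn⟩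
  choose f hf using h1
  refine ⟨hΞ.toFinset.sup f + 1, fun ξ hξ hne he => ?_⟩
  have hle : f ξ ≤ hΞ.toFinset.sup f := Finset.le_sup (hΞ.mem_toFinset.2 hξ)
  rw [pre_eq_map, pre_eq_map, List.map_inj_left] at he
  exact hf ξ hne (he (f ξ) (List.mem_range.2 (by omega)))

theorem BT_mem [Finite X] {g : TA X} (hg : BT g) : g ∈ MM X := by
  obtain ⟨k, Ξ, hΞ, h⟩ := hg
  apply mem_of_rays
  intro ζ
  obtain ⟨n, hn⟩ := separate hΞ ζ
  refine ⟨n, arr_le (ξ := sh ζ n) ⟨k, fun m x w hx hw => ?_⟩⟩
  rw [sec_apply]
  have h1 : pre ζ n ++ (pre (sh ζ n) m ++ x :: w) = (pre ζ (n + m) ++ [x]) ++ w := by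
    rw [pre_add, List.append_assoc, List.append_assoc]
    rfl
  rw [h1]
  refine h _ _ ?_ hw
  intro ξ hξ he
  rw [List.length_append, length_pre, List.length_singleton] at he
  by_cases hz : ξ = ζ
  · subst hz
    rw [pre_succ'] at he
    have h2 := (List.append_inj' he rfl).2
    exact hx (List.cons.inj h2).1
  · apply hn ξ hξ hz
    have h2 := congrArg (List.take n) he
    rw [show n + m + 1 = n + (m + 1) by ring, pre_add, pre_add, List.append_assoc] at h2
    rw [List.take_left' (length_pre _ _), List.take_left' (length_pre _ _)] at h2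
    exact h2.symm

end Pool.Agent.H98.FJ
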