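import Pool.Agent.H98.FJ.Generate

/-!
# Automorphisms of the rooted tree as order isomorphisms, and their portraits
-/

set_option autoImplicit false

namespace Pool.Agent.H98.FJ

open TA

/-- the automorphism group of the rooted tree of words over `X` (the order is: prefix of) -/
abbrev TreeAut (X : Type) : Type :=
  ((· <+: ·) : List X → List X → Prop) ≃r ((· <+: ·) : List X → List X → Prop)

/-- `g` is of bounded type: there are finitely many rays and a number `k` such that for every vertex `v` which is not on
one of these rays the section of `g` at `v` changes only the first `k` letters. -/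
def BoundedType {X : Type} (g : TreeAut X) : Prop :=
  ∃ (k : ℕ) (Ξ : Set (ℕ → X)), Ξ.Finite ∧
    ∀ v w u : List X, (∀ ξ ∈ Ξ, v ≠ (List.range v.length).map ξ) → k ≤ w.length →
      g (v ++ w ++ u) = g (v ++ w) ++ u

/-- the section of `g` at the vertex `v` -/
def sectionAt {X : Type} (g : TreeAut X) (v : List X) : List X → List X :=
  fun w => (g (v ++ w)).drop v.length

/-- `g` has only finitely many sections (it is given by a finite automaton) -/
def FiniteState {X : Type} (g : TreeAut X) : Prop := (Set.range (sectionAt g)).Finite

/-- bounded activity (Sidki): the number of nontrivial sections on a level is bounded -/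
def BoundedActivity {X : Type} (g : TreeAut X) : Prop :=
  ∃ B : ℕ, ∀ n, {v : List X | v.length = n ∧ sectionAt g v ≠ id}.ncard ≤ B

variable {X : Type}

theorem map_nil (g : TreeAut X) : g [] = [] := by
  have h1 : ([] : List X) <+: g.symm [] := List.nil_prefix
  have h2 := g.map_rel_iff.2 h1
  rw [RelIso.apply_symm_apply] at h2
  exact List.prefix_nil.1 h2

theorem map_step (g : TreeAut X) (v : List X) (x : X) : ∃ y, g (v ++ [x]) = g v ++ [y] := by
  have h1 : v <+: v ++ [x] := List.prefix_append _ _
  obtain ⟨t, ht⟩ := g.map_rel_iff.2 h1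
  cases t with
  | nil =>
    rw [List.append_nil] at ht
    have h2 := g.injective ht
    have h3 := congrArg List.length h2
    simp at h3
  | cons y t =>
    refine ⟨y, ?_⟩
    have h2 : g v ++ [y] <+: g (v ++ [x]) := ⟨t, by rw [← ht, List.append_assoc]; rfl⟩
    have h3 : g v <+: g v ++ [y] := List.prefix_append _ _
    have h4 : v <+: g.symm (g v ++ [y]) := by
      rw [← g.map_rel_iff, RelIso.apply_symm_apply]
      exact h3
    have h5 : g.symm (g v ++ [y]) <+: v ++ [x] := by
      rw [← g.map_rel_iff, RelIso.apply_symm_apply]
      exact h2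
    obtain ⟨s, hs⟩ := h4
    rw [← hs] at h5
    rw [List.prefix_append_right_inj] at h5
    obtain ⟨r, hr⟩ := h5
    cases s with
    | nil =>
      rw [List.append_nil] at hs
      have h6 := congrArg g hs
      rw [RelIso.apply_symm_apply] at h6
      have h7 := congrArg List.length h6
      simp at h7
    | cons a s =>
      have h6 : s = [] := by
        have h7 := (List.cons.inj hr).2
        exact (List.append_eq_nil_iff.1 h7).1
      have h8 : a = x := (List.cons.inj hr).1
      rw [h6, h8] at hs
      rw [hs, RelIso.apply_symm_apply]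

/-- the permutation of the letters at a vertex -/
noncomputable def pm (g : TreeAut X) (v : List X) (x : X) : X := (map_step g v x).choose

theorem pm_spec (g : TreeAut X) (v : List X) (x : X) : g (v ++ [x]) = g v ++ [pm g v x] :=
  (map_step g v x).choose_spec

theorem pm_injective (g : TreeAut X) (v : List X) : Function.Injective (pm g v) := by
  intro x y h
  have h1 : g (v ++ [x]) = g (v ++ [y]) := by rw [pm_spec, pm_spec, h]
  have h2 := g.injective h1
  have h3 := List.append_cancel_left h2
  exact (List.cons.inj h3).1

/-- the portrait -/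
noncomputable def prt [Finite X] (g : TreeAut X) : TA X := fun v =>
  Equiv.ofBijective (pm g v) (Finite.injective_iff_bijective.1 (pm_injective g v))

theorem act_prt [Finite X] (g : TreeAut X) (v : List X) : act v (prt g) = g v := by
  induction v using List.reverseRecOn with
  | nil => rw [act_nil, map_nil]
  | append_singleton v x ih =>
    rw [act_append, ih, pm_spec]
    congr 1
    change [prt g (v ++ []) x] = [pm g v x]
    rw [List.append_nil]
    rfl

/-- the portrait as an injective homomorphism -/
noncomputable def prtHom (X : Type) [Finite X] : TreeAut X →* TA X where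
  toFun := prt
  map_one' := by
    apply ext_act
    intro v
    rw [act_prt, act_one]
    rfl
  map_mul' g h := by
    apply ext_act
    intro v
    rw [act_prt, act_mul, act_prt, act_prt]
    rfl

theorem prtHom_injective [Finite X] : Function.Injective (prtHom X) := by
  intro g h hgh
  apply RelIso.ext
  intro v
  have h1 : prt g = prt h := hgh
  rw [← act_prt g v, ← act_prt h v, h1]

theorem trivial_iff (g : TA X) (v : List X) :
    (∀ u, act (v ++ u) g = act v g ++ u) ↔ sec g v = 1 := by
  constructor
  · intro h
    apply ext_act
    intro u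
    have h1 := h u
    rw [act_append] at h1
    rw [List.append_cancel_left h1, act_one]
  · intro h u
    rw [act_append, h, act_one]

theorem boundedType_iff [Finite X] (g : TreeAut X) : BoundedType g ↔ BT (prt g) := by
  constructor
  · rintro ⟨k, Ξ, hΞ, h⟩
    refine ⟨k, Ξ, hΞ, fun v w hv hw => ?_⟩
    have h1 : sec (prt g) (v ++ w) = 1 := by
      rw [← trivial_iff]
      intro u
      rw [act_prt, act_prt]
      exact h v w u (fun ξ hξ => by rw [← pre_eq_map]; exact hv ξ hξ) hw
    have h2 := congrFun h1 []
    rw [sec_apply, List.append_nil] at h2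
    exact h2
  · rintro ⟨k, Ξ, hΞ, h⟩
    refine ⟨k, Ξ, hΞ, fun v w u hv hw => ?_⟩
    rw [← act_prt, ← act_prt]
    have h1 : sec (prt g) (v ++ w) = 1 := by
      ext u : 1
      rw [sec_apply, List.append_assoc]
      exact h v (w ++ u) (fun ξ hξ => by rw [pre_eq_map]; exact hv ξ hξ)
        (by rw [List.length_append]; omega)
    exact (trivial_iff _ _).2 h1 u

/-- a property of vertices which can be continued can be continued along a ray -/
theorem extend_ray (P : List X → Prop) (hstep : ∀ v, P v → ∃ x, P (v ++ [x])) (v : List X)
    (hv : P v) : ∃ ζ : ℕ → X, pre ζ v.length = v ∧ ∀ n, P (pre ζ (v.length + n)) := by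
  have hne : Nonempty X := ⟨(hstep v hv).choose⟩
  choose! nx hnx using hstep
  let vs : ℕ → List X := fun n => Nat.rec v (fun _ u => u ++ [nx u]) n
  have hvs : ∀ n, vs (n + 1) = vs n ++ [nx (vs n)] := fun n => rfl
  have hP : ∀ n, P (vs n) := by
    intro n
    induction n with
    | zero => exact hv
    | succ n ih =>
      rw [hvs]
      exact hnx _ ih
  let ζ : ℕ → X := fun n => if h : n < v.length then v[n] else nx (vs (n - v.length))
  have h0 : pre ζ v.length = v := by
    rw [pre_eq_map]
    apply List.ext_getElem
    · simp
    · intro i h1 h2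
      simp only [List.getElem_map, List.getElem_range]
      change (if h : i < v.length then v[i] else _) = _
      rw [dif_pos h2]
  have hζ : ∀ n, pre ζ (v.length + n) = vs n := by
    intro n
    induction n with
    | zero => exact h0
    | succ n ih =>
      rw [← Nat.add_assoc, pre_succ', ih, hvs]
      congr 2
      change (if h : v.length + n < v.length then v[v.length + n] else _) = _
      rw [dif_neg (by omega), Nat.add_sub_cancel_left]
  refine ⟨ζ, h0, fun n => ?_⟩
  rw [hζ]
  exact hP n

/-- finitely many finitary sections and boundedly many nontrivial sections on a level imply bounded type -/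
theorem BT_of_bounded [Finite X] {g : TA X} (hfs : (Set.range (sec g)).Finite) {B : ℕ}
    (hB : ∀ n, {v : List X | v.length = n ∧ sec g v ≠ 1}.ncard ≤ B) : BT g := by
  classical
  let NF : List X → Prop := fun v => sec g v ∉ finG X
  have hstep : ∀ v, NF v → ∃ x, NF (v ++ [x]) := by
    intro v hv
    by_contra hcon
    push Not at hcon
    apply hv
    have h1 : ∀ x, ∃ k, Fk k (sec g (v ++ [x])) := fun x => not_not.1 (hcon x)
    choose k hk using h1
    have := Fintype.ofFinite X
    refine ⟨Finset.univ.sup k + 1, fun w hw => ?_⟩
    cases w with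
    | nil => simp at hw
    | cons x w =>
      have h2 := hk x w (by
        have h3 : k x ≤ Finset.univ.sup k := Finset.le_sup (Finset.mem_univ x)
        rw [List.length_cons] at hw
        omega)
      rw [sec_apply] at h2 ⊢
      rw [List.append_assoc] at h2
      exact h2
  have hher : ∀ v w, NF (v ++ w) → NF v := by
    intro v w h h1
    apply h
    rw [← sec_sec]
    exact finG_sec h1 w
  let T : Set (ℕ → X) := {ζ | ∀ n, NF (pre ζ n)}
  have hT : T.Finite := by
    by_contra hinf
    obtain ⟨s, hs, hcard⟩ := Set.Infinite.exists_subset_card_eq hinf (B + 1)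
    -- a separating level
    have h1 : ∀ ζ : ℕ → X, ∃ n, ∀ m, n ≤ m → ∀ ξ ∈ s, ξ ≠ ζ → pre ξ m ≠ pre ζ m := by
      intro ζ
      obtain ⟨n, hn⟩ := separate s.finite_toSet ζ
      refine ⟨n, fun m hm ξ hξ hne he => hn ξ hξ hne ?_⟩
      obtain ⟨k, rfl⟩ := Nat.exists_eq_add_of_le hm
      rw [pre_add, pre_add] at he
      exact (List.append_inj he (by rw [length_pre, length_pre])).1
    choose f hf using h1
    have hmaps : ∀ ζ ∈ (s : Set (ℕ → X)), pre ζ (s.sup f) ∈
        {v : List X | v.length = s.sup f ∧ sec g v ≠ 1} := by
      intro ζ hζ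
      refine ⟨length_pre _ _, fun h => ?_⟩
      apply hs hζ (s.sup f)
      rw [h]
      exact one_mem _
    have hinj : Set.InjOn (fun ζ : ℕ → X => pre ζ (s.sup f)) (s : Set (ℕ → X)) := by
      intro ξ hξ ζ hζ he
      by_contra hne
      exact hf ζ (s.sup f) (Finset.le_sup hζ) ξ hξ hne he
    have hfin : {v : List X | v.length = s.sup f ∧ sec g v ≠ 1}.Finite :=
      (List.finite_length_eq X (s.sup f)).subset fun v hv => hv.1
    have h2 := Set.ncard_le_ncard_of_injOn _ hmaps hinj hfin
    rw [Set.ncard_coe_finset, hcard] at h2
    have h3 := hB (s.sup f)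
    omega
  -- the depth of the finitary sections
  have hk : ∃ k, ∀ v, ¬ NF v → Fk k (sec g v) := by
    have h1 : ∀ s ∈ Set.range (sec g), ∃ k, s ∈ finG X → Fk k s := by
      rintro s -
      by_cases h : s ∈ finG X
      · obtain ⟨k, hk⟩ := h
        exact ⟨k, fun _ => hk⟩
      · exact ⟨0, fun h' => absurd h' h⟩
    choose! f hf using h1
    refine ⟨hfs.toFinset.sup f, fun v hv => ?_⟩
    have h2 : sec g v ∈ Set.range (sec g) := ⟨v, rfl⟩
    exact Fk_mono (Finset.le_sup (f := f) (hfs.mem_toFinset.2 h2)) (hf _ h2 (not_not.1 hv))
  obtain ⟨k, hk⟩ := hk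
  refine ⟨k, T, hT, fun v w hv hw => ?_⟩
  have h1 : ¬ NF v := by
    intro h
    obtain ⟨ζ, h2, h3⟩ := extend_ray NF hstep v h
    refine hv ζ (fun n => ?_) h2.symm
    rcases le_total v.length n with hn | hn
    · obtain ⟨m, rfl⟩ := Nat.exists_eq_add_of_le hn
      exact h3 m
    · obtain ⟨m, hm⟩ := Nat.exists_eq_add_of_le hn
      have h4 := h3 0
      rw [Nat.add_zero, hm, pre_add] at h4
      exact hher _ _ h4
  exact hk v h1 w hw

theorem section_eq [Finite X] (g : TreeAut X) (v w : List X) :
    sectionAt g v w = act w (sec (prt g) v) := by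
  unfold sectionAt
  rw [← act_prt, act_append]
  rw [List.drop_left' (length_act _ _)]

theorem sec_of_section [Finite X] (g : TreeAut X) :
    ∃ φ : (List X → List X) → TA X, ∀ v, sec (prt g) v = φ (sectionAt g v) := by
  classical
  refine ⟨fun s => if h : ∃ v, sectionAt g v = s then sec (prt g) h.choose else 1, fun v => ?_⟩
  have h : ∃ u, sectionAt g u = sectionAt g v := ⟨v, rfl⟩
  beta_reduce
  rw [dif_pos h]
  apply ext_act
  intro w
  have h1 := congrFun h.choose_spec w
  rw [section_eq, section_eq] at h1
  exact h1.symm

/-- automorphisms given by bounded automata are of bounded type -/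
theorem boundedType_of_automaton [Finite X] (g : TreeAut X) (h1 : FiniteState g)
    (h2 : BoundedActivity g) : BoundedType g := by
  rw [boundedType_iff]
  obtain ⟨B, hB⟩ := h2
  obtain ⟨φ, hφ⟩ := sec_of_section g
  refine BT_of_bounded (B := B) ?_ fun n => ?_
  · refine (h1.image φ).subset ?_
    rintro _ ⟨v, rfl⟩
    exact ⟨sectionAt g v, ⟨v, rfl⟩, (hφ v).symm⟩
  · refine le_trans ?_ (hB n)
    refine Set.ncard_le_ncard ?_ ((List.finite_length_eq X n).subset fun v hv => hv.1)
    rintro v ⟨hv1, hv2⟩
    refine ⟨hv1, fun h => hv2 ?_⟩
    apply ext_act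
    intro w
    rw [← section_eq, h, act_one]
    rfl

/-- every group of automorphisms of bounded type is in the class -/
theorem mem_of_boundedType {C : (G : Type) → [Group G] → Prop} (hC : Inherits C) [Finite X]
    (H : Subgroup (TreeAut X)) (hH : H ≤ Subgroup.closure {g | BoundedType g}) : C H := by
  -- a ray
  by_cases hX : Nonempty X
  · obtain ⟨x0⟩ := hX
    let ξ0 : ℕ → X := fun _ => x0
    have h1 : Subgroup.closure {g : TreeAut X | BoundedType g} ≤
        (port (psi ξ0)).range.comap (prtHom X) := by
      rw [Subgroup.closure_le]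
      intro g hg
      exact gen_le ξ0 (BT_mem ((boundedType_iff g).1 hg))
    let φ : H →* (port (psi ξ0)).range :=
      { toFun := fun g => ⟨prtHom X g.1, h1 (hH g.2)⟩
        map_one' := Subtype.ext (map_one (prtHom X))
        map_mul' := fun a b => Subtype.ext (map_mul (prtHom X) a.1 b.1) }
    refine hC.of_injective φ ?_ (range_mem hC ξ0)
    intro a b hab
    apply Subtype.ext
    apply prtHom_injective
    exact congrArg Subtype.val hab
  · -- only one word
    have hl : ∀ v : List X, v = [] := by
      intro v
      cases v with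
      | nil => rfl
      | cons x w => exact absurd ⟨x⟩ hX
    have : Subsingleton (TreeAut X) := ⟨fun a b => by
      apply RelIso.ext
      intro v
      rw [hl (a v), hl (b v)]⟩
    have : Finite H := inferInstance
    exact hC.fin H this

end Pool.Agent.H98.FJ
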