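import Mathlib

/-!
# Portraits of automorphisms of the rooted tree `X^*`

`TA X` is the group of all automorphisms of the rooted tree `List X`, given by portraits: `g v` is the permutation of the
letters at the vertex `v`.
-/

set_option autoImplicit false

namespace Pool.Agent.H98.FJ

/-- portraits -/
def TA (X : Type) : Type := List X → Equiv.Perm X

namespace TA

variable {X : Type}

@[ext] theorem ext {g h : TA X} (H : ∀ v, g v = h v) : g = h := funext H

/-- the section at a letter -/
def sec1 (g : TA X) (x : X) : TA X := fun w => g (x :: w)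

/-- the section at a word -/
def sec (g : TA X) (v : List X) : TA X := fun w => g (v ++ w)

/-- the action on the tree -/
def act : List X → TA X → List X
  | [], _ => []
  | x :: w, g => g [] x :: act w (sec1 g x)

/-- the action of the inverse -/
def iact : List X → TA X → List X
  | [], _ => []
  | y :: w, g => (g [])⁻¹ y :: iact w (sec1 g ((g [])⁻¹ y))

@[simp] theorem act_nil (g : TA X) : act [] g = [] := rfl
@[simp] theorem act_cons (x : X) (w : List X) (g : TA X) :
    act (x :: w) g = g [] x :: act w (sec1 g x) := rfl
@[simp] theorem iact_nil (g : TA X) : iact [] g = [] := rfl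
@[simp] theorem iact_cons (y : X) (w : List X) (g : TA X) :
    iact (y :: w) g = (g [])⁻¹ y :: iact w (sec1 g ((g [])⁻¹ y)) := rfl

@[simp] theorem sec_nil (g : TA X) : sec g [] = g := rfl
theorem sec_cons (g : TA X) (x : X) (v : List X) : sec g (x :: v) = sec (sec1 g x) v := rfl
theorem sec_apply (g : TA X) (v w : List X) : sec g v w = g (v ++ w) := rfl
theorem sec1_apply (g : TA X) (x : X) (w : List X) : sec1 g x w = g (x :: w) := rfl
theorem sec_sec (g : TA X) (v w : List X) : sec (sec g v) w = sec g (v ++ w) := by
  ext u : 1
  simp [sec, List.append_assoc]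
theorem sec1_eq (g : TA X) (x : X) : sec1 g x = sec g [x] := rfl

theorem length_act (v : List X) (g : TA X) : (act v g).length = v.length := by
  induction v generalizing g with
  | nil => rfl
  | cons x w ih => simp [ih]

theorem length_iact (v : List X) (g : TA X) : (iact v g).length = v.length := by
  induction v generalizing g with
  | nil => rfl
  | cons x w ih => simp [ih]

theorem act_iact (v : List X) (g : TA X) : act (iact v g) g = v := by
  induction v generalizing g with
  | nil => rfl
  | cons y w ih =>
    rw [iact_cons, act_cons, ih]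
    simp

theorem iact_act (v : List X) (g : TA X) : iact (act v g) g = v := by
  induction v generalizing g with
  | nil => rfl
  | cons y w ih =>
    rw [act_cons, iact_cons]
    have : (g [])⁻¹ (g [] y) = y := by simp
    rw [this, ih]

theorem act_append (v w : List X) (g : TA X) : act (v ++ w) g = act v g ++ act w (sec g v) := by
  induction v generalizing g with
  | nil => rfl
  | cons x v ih =>
    rw [List.cons_append, act_cons, act_cons, ih, List.cons_append]
    rfl

instance : One (TA X) := ⟨fun _ => 1⟩
instance : Mul (TA X) := ⟨fun g h w => g (act w h) * h w⟩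
instance : Inv (TA X) := ⟨fun g w => (g (iact w g))⁻¹⟩

theorem one_apply (w : List X) : (1 : TA X) w = 1 := rfl
theorem mul_apply (g h : TA X) (w : List X) : (g * h) w = g (act w h) * h w := rfl
theorem inv_apply' (g : TA X) (w : List X) : (g⁻¹) w = (g (iact w g))⁻¹ := rfl

theorem sec1_one (x : X) : sec1 (1 : TA X) x = 1 := rfl
theorem sec_one (v : List X) : sec (1 : TA X) v = 1 := rfl

theorem sec1_mul (g h : TA X) (x : X) : sec1 (g * h) x = sec1 g (h [] x) * sec1 h x := by
  ext w : 1
  rfl

theorem act_one (v : List X) : act v (1 : TA X) = v := by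
  induction v with
  | nil => rfl
  | cons x w ih =>
    rw [act_cons, sec1_one, ih]
    rfl

theorem act_mul (v : List X) (g h : TA X) : act v (g * h) = act (act v h) g := by
  induction v generalizing g h with
  | nil => rfl
  | cons x w ih =>
    rw [act_cons, act_cons, act_cons, sec1_mul, ih]
    rfl

instance : Group (TA X) where
  mul_assoc a b c := by
    ext w : 1
    rw [mul_apply, mul_apply, mul_apply, mul_apply, act_mul, mul_assoc]
  one_mul a := by
    ext w : 1
    rw [mul_apply, one_apply, one_mul]
  mul_one a := by
    ext w : 1
    rw [mul_apply, one_apply, act_one, mul_one]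
  inv_mul_cancel a := by
    ext w : 1
    rw [mul_apply, inv_apply', iact_act, inv_mul_cancel, one_apply]

theorem sec_mul (g h : TA X) (v : List X) : sec (g * h) v = sec g (act v h) * sec h v := by
  ext w : 1
  rw [sec_apply, mul_apply, mul_apply, act_append, sec_apply, sec_apply]

theorem inv_apply (g : TA X) (w : List X) : (g⁻¹) w = (g (act w g⁻¹))⁻¹ := by
  have h : (g * g⁻¹) w = 1 := by rw [mul_inv_cancel]; rfl
  rw [mul_apply] at h
  exact eq_inv_of_mul_eq_one_right h

theorem act_inv_act (v : List X) (g : TA X) : act (act v g) g⁻¹ = v := by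
  rw [← act_mul, inv_mul_cancel, act_one]

theorem act_act_inv (v : List X) (g : TA X) : act (act v g⁻¹) g = v := by
  rw [← act_mul, mul_inv_cancel, act_one]

theorem sec_inv (g : TA X) (v : List X) : sec g⁻¹ v = (sec g (act v g⁻¹))⁻¹ := by
  rw [eq_inv_iff_mul_eq_one, ← act_act_inv v g]
  have h := sec_mul g⁻¹ g (act v g⁻¹)
  rw [inv_mul_cancel, sec_one] at h
  rw [act_act_inv] at h ⊢
  exact h.symm

theorem sec1_inv (g : TA X) (x : X) : sec1 g⁻¹ x = (sec1 g (g⁻¹ [] x))⁻¹ := by
  rw [sec1_eq, sec_inv]
  rfl

theorem inv_nil (g : TA X) : g⁻¹ [] = (g [])⁻¹ := rfl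

/-- the action is faithful -/
theorem ext_act {g h : TA X} (H : ∀ v, act v g = act v h) : g = h := by
  ext v x : 2
  have h1 := H (v ++ [x])
  rw [act_append, act_append, H v] at h1
  have h2 := List.append_cancel_left h1
  simp only [act_cons, act_nil, sec_apply, List.append_nil, List.cons.injEq, and_true] at h2
  exact h2

theorem act_injective (g : TA X) : Function.Injective (fun v => act v g) := by
  intro v w h
  have := congrArg (fun u => act u g⁻¹) h
  simpa [act_inv_act] using this

/-- the permutation of a level -/
def lev (n : ℕ) (g : TA X) : Equiv.Perm {v : List X // v.length = n} where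
  toFun v := ⟨act v.1 g, by rw [length_act]; exact v.2⟩
  invFun v := ⟨act v.1 g⁻¹, by rw [length_act]; exact v.2⟩
  left_inv v := Subtype.ext (act_inv_act _ _)
  right_inv v := Subtype.ext (act_act_inv _ _)

theorem lev_apply (n : ℕ) (g : TA X) (v : {v : List X // v.length = n}) :
    ((lev n g) v).1 = act v.1 g := rfl

/-- the action on a level is a homomorphism -/
def levHom (n : ℕ) : TA X →* Equiv.Perm {v : List X // v.length = n} where
  toFun := lev n
  map_one' := by
    ext v : 2
    exact act_one _
  map_mul' g h := by
    ext v : 2
    exact act_mul _ _ _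

end TA

end Pool.Agent.H98.FJ
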