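import Pool.Agent.H98.FJ.Tree
import Pool.Agent.H98.FJ.Closed

/-!
# Permutational wreath products and self-similar groups
-/

set_option autoImplicit false

namespace Pool.Agent.H98.FJ

/-- the permutational wreath product of `F` and the symmetric group of `Y` -/
@[ext] structure Wr (F Y : Type) where
  sec : Y → F
  perm : Equiv.Perm Y

namespace Wr

variable {F Y : Type} [Group F]

instance : One (Wr F Y) := ⟨⟨fun _ => 1, 1⟩⟩
instance : Mul (Wr F Y) := ⟨fun a b => ⟨fun y => a.sec (b.perm y) * b.sec y, a.perm * b.perm⟩⟩
instance : Inv (Wr F Y) := ⟨fun a => ⟨fun y => (a.sec (a.perm⁻¹ y))⁻¹, a.perm⁻¹⟩⟩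

@[simp] theorem one_sec (y : Y) : (1 : Wr F Y).sec y = 1 := rfl
@[simp] theorem one_perm : (1 : Wr F Y).perm = 1 := rfl
@[simp] theorem mul_sec (a b : Wr F Y) (y : Y) : (a * b).sec y = a.sec (b.perm y) * b.sec y := rfl
@[simp] theorem mul_perm (a b : Wr F Y) : (a * b).perm = a.perm * b.perm := rfl
@[simp] theorem inv_sec (a : Wr F Y) (y : Y) : (a⁻¹).sec y = (a.sec (a.perm⁻¹ y))⁻¹ := rfl
@[simp] theorem inv_perm (a : Wr F Y) : (a⁻¹).perm = a.perm⁻¹ := rfl

instance : Group (Wr F Y) where
  mul_assoc a b c := by
    ext y
    · simp [mul_assoc]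
    · simp [mul_assoc]
  one_mul a := by ext y <;> simp
  mul_one a := by ext y <;> simp
  inv_mul_cancel a := by ext y <;> simp

/-- the permutation as a homomorphism -/
def permHom : Wr F Y →* Equiv.Perm Y where
  toFun := perm
  map_one' := rfl
  map_mul' _ _ := rfl

/-- wreath products with finite symmetric groups are in the class -/
theorem mem {C : (G : Type) → [Group G] → Prop} (hC : Inherits C) [Finite Y] (h : C F) :
    C (Wr F Y) := by
  let φ : (permHom (F := F) (Y := Y)).ker →* (Y → F) :=
    { toFun := fun a => a.1.sec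
      map_one' := rfl
      map_mul' := fun a b => by
        funext y
        have hb : b.1.perm = 1 := b.2
        change (a.1 * b.1).sec y = a.1.sec y * b.1.sec y
        rw [mul_sec, hb]
        rfl }
  have hφ : Function.Injective φ := by
    intro a b hab
    apply Subtype.ext
    have ha : a.1.perm = 1 := a.2
    have hb : b.1.perm = 1 := b.2
    have hs : a.1.sec = b.1.sec := hab
    ext y
    · rw [hs]
    · rw [ha, hb]
  have h1 : C (permHom (F := F) (Y := Y)).ker :=
    hC.of_injective φ hφ (hC.pi Y inferInstance (fun _ => F) (fun _ => h))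
  have h2 : (permHom (F := F) (Y := Y)).ker.FiniteIndex := by
    have : Finite (Equiv.Perm Y) := inferInstance
    infer_instance
  exact hC.index _ _ h2 h1

end Wr

/-- sections at words for a self-similar structure -/
def secw {F X : Type} [Group F] (ψ : F →* Wr F X) : List X → F → F
  | [], f => f
  | x :: w, f => secw ψ w ((ψ f).sec x)

/-- the portrait of an element of a self-similar group -/
def portf {F X : Type} [Group F] (ψ : F →* Wr F X) (f : F) : TA X := fun w => (ψ (secw ψ w f)).perm

section

variable {F X : Type} [Group F] (ψ : F →* Wr F X)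

@[simp] theorem secw_nil (f : F) : secw ψ [] f = f := rfl
@[simp] theorem secw_cons (x : X) (w : List X) (f : F) :
    secw ψ (x :: w) f = secw ψ w ((ψ f).sec x) := rfl

theorem secw_append (v w : List X) (f : F) : secw ψ (v ++ w) f = secw ψ w (secw ψ v f) := by
  induction v generalizing f with
  | nil => rfl
  | cons x v ih => exact ih _

theorem portf_nil (f : F) : portf ψ f [] = (ψ f).perm := rfl

theorem sec1_portf (f : F) (x : X) : TA.sec1 (portf ψ f) x = portf ψ ((ψ f).sec x) := rfl

theorem sec_portf (f : F) (v : List X) : TA.sec (portf ψ f) v = portf ψ (secw ψ v f) := by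
  funext w
  change (ψ (secw ψ (v ++ w) f)).perm = (ψ (secw ψ w (secw ψ v f))).perm
  rw [secw_append]

theorem secw_one (v : List X) : secw ψ v 1 = 1 := by
  induction v with
  | nil => rfl
  | cons x w ih =>
    rw [secw_cons, map_one]
    exact ih

theorem secw_mul (v : List X) (f g : F) :
    secw ψ v (f * g) = secw ψ (TA.act v (portf ψ g)) f * secw ψ v g := by
  induction v generalizing f g with
  | nil => rfl
  | cons x w ih =>
    rw [secw_cons, map_mul, Wr.mul_sec, ih, TA.act_cons, sec1_portf, portf_nil, secw_cons,
      secw_cons]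

theorem portf_mul (f g : F) : portf ψ (f * g) = portf ψ f * portf ψ g := by
  ext w : 1
  rw [TA.mul_apply]
  change (ψ (secw ψ w (f * g))).perm = _
  rw [secw_mul, map_mul]
  rfl

theorem portf_one : portf ψ 1 = 1 := by
  ext w : 1
  change (ψ (secw ψ w 1)).perm = 1
  rw [secw_one, map_one]
  rfl

/-- the action of a self-similar group on the tree -/
def port : F →* TA X where
  toFun := portf ψ
  map_one' := portf_one ψ
  map_mul' := portf_mul ψ

theorem port_apply (f : F) : port ψ f = portf ψ f := rfl

/-- the action on a level together with the sections -/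
def levW (n : ℕ) : F →* Wr F {v : List X // v.length = n} where
  toFun f := ⟨fun v => secw ψ v.1 f, TA.lev n (portf ψ f)⟩
  map_one' := by
    refine Wr.ext (funext fun v => secw_one ψ _) (Equiv.ext fun v => Subtype.ext ?_)
    change TA.act _ (portf ψ 1) = _
    rw [portf_one, TA.act_one]
    rfl
  map_mul' f g := by
    refine Wr.ext (funext fun v => secw_mul ψ _ _ _) (Equiv.ext fun v => Subtype.ext ?_)
    change TA.act _ (portf ψ (f * g)) = _
    rw [portf_mul, TA.act_mul]
    rfl

theorem levW_eq_one (n : ℕ) (f : F) : levW ψ n f = 1 ↔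
    (∀ v : List X, v.length = n → secw ψ v f = 1) ∧
      ∀ v : List X, v.length = n → TA.act v (portf ψ f) = v := by
  constructor
  · intro h
    constructor
    · intro v hv
      exact congrArg (fun a => a.sec ⟨v, hv⟩) h
    · intro v hv
      exact congrArg (fun a => (a.perm ⟨v, hv⟩).1) h
  · rintro ⟨h1, h2⟩
    exact Wr.ext (funext fun v => h1 v.1 v.2) (Equiv.ext fun v => Subtype.ext (h2 v.1 v.2))

/-- Main tool: if every element of `F` which acts trivially on the tree has trivial sections on some level, then the
image of `F` in the automorphism group of the tree is in the class. -/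
theorem port_range_mem {C : (G : Type) → [Group G] → Prop} (hC : Inherits C) [Finite X] (hF : C F)
    (h : ∀ f : F, port ψ f = 1 → ∃ n, ∀ v : List X, v.length = n → secw ψ v f = 1) :
    C (port ψ).range := by
  have : ∀ n, Finite {v : List X // v.length = n} := fun n =>
    (List.finite_length_eq X n).to_subtype
  refine hC.quot (port ψ).rangeRestrict (port ψ).rangeRestrict_surjective
    (fun n => (levW ψ n).ker) ?_ ?_ ?_ ?_
  · -- monotone
    intro i j hij f hf
    rw [MonoidHom.mem_ker, levW_eq_one] at hf ⊢
    obtain ⟨h1, h2⟩ := hf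
    have hsplit : ∀ v : List X, v.length = j → ∃ u w, v = u ++ w ∧ u.length = i := by
      intro v hv
      exact ⟨v.take i, v.drop i, (List.take_append_drop i v).symm, by
        rw [List.length_take, hv, min_eq_left hij]⟩
    constructor
    · intro v hv
      obtain ⟨u, w, rfl, hu⟩ := hsplit v hv
      rw [secw_append, h1 u hu, secw_one]
    · intro v hv
      obtain ⟨u, w, rfl, hu⟩ := hsplit v hv
      rw [TA.act_append, h2 u hu, sec_portf, h1 u hu, portf_one, TA.act_one]
  · intro i f hf
    rw [MonoidHom.mem_ker, levW_eq_one] at hf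
    obtain ⟨h1, h2⟩ := hf
    rw [MonoidHom.ker_rangeRestrict, MonoidHom.mem_ker]
    apply TA.ext_act
    intro v
    rw [TA.act_one]
    rcases le_or_gt i v.length with hv | hv
    · obtain ⟨u, w, rfl, hu⟩ : ∃ u w, v = u ++ w ∧ u.length = i :=
        ⟨v.take i, v.drop i, (List.take_append_drop i v).symm, by
          rw [List.length_take, min_eq_left hv]⟩
      rw [port_apply, TA.act_append, h2 u hu, sec_portf, h1 u hu, portf_one, TA.act_one]
    · -- extend the word
      by_cases hX : Nonempty X
      · obtain ⟨x⟩ := hX
        have h3 := h2 (v ++ List.replicate (i - v.length) x) (by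
          rw [List.length_append, List.length_replicate]
          omega)
        rw [TA.act_append] at h3
        exact (List.append_inj h3 (TA.length_act _ _)).1
      · cases v with
        | nil => rfl
        | cons x w => exact absurd ⟨x⟩ hX
  · intro f hf
    rw [MonoidHom.ker_rangeRestrict, MonoidHom.mem_ker] at hf
    obtain ⟨n, hn⟩ := h f hf
    refine ⟨n, ?_⟩
    rw [MonoidHom.mem_ker, levW_eq_one]
    refine ⟨hn, fun v _ => ?_⟩
    rw [← port_apply, hf, TA.act_one]
  · intro n
    have h1 : C (levW ψ n).range :=
      hC.sub _ _ (Wr.mem hC hF)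
    exact hC.iso _ _ (QuotientGroup.quotientKerEquivRange (levW ψ n)).symm h1

end

end Pool.Agent.H98.FJ
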